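import Mathlib
import Pool.Agent.Lib_helper14.HKC.DefsC

set_option autoImplicit false

namespace HKC

open MeasureTheory QG HK

/-- separated -/
def cn_sep (r : ℕ) (A : Finset (ℤ × ℤ)) : Prop := ∀ k ∈ A, ∀ k' ∈ A, k ≠ k' → r < di k k'

/-- a maximal separated subset -/
theorem sep_subset (r : ℕ) (S : Finset (ℤ × ℤ)) :
    ∃ S' ⊆ S, (∀ k ∈ S', ∀ k' ∈ S', k ≠ k' → r < di k k') ∧ S.card ≤ (2 * r + 1) ^ 2 * S'.card := by
  classical
  set F := S.powerset.filter (cn_sep r) with hF
  have hne : F.Nonempty := ⟨∅, by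
    rw [hF, Finset.mem_filter]
    exact ⟨Finset.empty_mem_powerset S, fun k hk => absurd hk (Finset.notMem_empty k)⟩⟩
  obtain ⟨A, hA, hmax⟩ := Finset.exists_max_image F (fun A => A.card) hne
  rw [hF, Finset.mem_filter, Finset.mem_powerset] at hA
  obtain ⟨hAS, hsep⟩ := hA
  have hsymm : ∀ a b : ℤ × ℤ, di a b = di b a := by
    intro a b
    unfold di
    rw [← Int.natAbs_neg (a.1 - b.1), ← Int.natAbs_neg (a.2 - b.2), neg_sub, neg_sub]
  have hcov : ∀ k ∈ S, ∃ k' ∈ A, di k k' ≤ r := by
    intro k hk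
    by_contra hc
    push Not at hc
    have hkA : k ∉ A := by
      intro h
      have := hc k h
      unfold di at this
      simp at this
    have hin : insert k A ∈ F := by
      rw [hF, Finset.mem_filter, Finset.mem_powerset]
      refine ⟨Finset.insert_subset hk hAS, ?_⟩
      intro a ha b hb hab
      rcases Finset.mem_insert.1 ha with h1 | h1
      · rcases Finset.mem_insert.1 hb with h2 | h2
        · exact absurd (h1.trans h2.symm) hab
        · rw [h1]; exact hc b h2
      · rcases Finset.mem_insert.1 hb with h2 | h2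
        · rw [h2, hsymm]; exact hc a h1
        · exact hsep a h1 b h2 hab
    have h3 := hmax (insert k A) hin
    rw [Finset.card_insert_of_notMem hkA] at h3
    omega
  refine ⟨A, hAS, hsep, ?_⟩
  have hsub : S ⊆ A.biUnion (fun k' => (Finset.Icc (k'.1 - r) (k'.1 + r)) ×ˢ
      (Finset.Icc (k'.2 - r) (k'.2 + r))) := by
    intro k hk
    obtain ⟨k', hk', hd⟩ := hcov k hk
    rw [Finset.mem_biUnion]
    refine ⟨k', hk', ?_⟩
    unfold di at hd
    have h1 : (k.1 - k'.1).natAbs ≤ r := (le_max_left _ _).trans hd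
    have h2 : (k.2 - k'.2).natAbs ≤ r := (le_max_right _ _).trans hd
    rw [Finset.mem_product, Finset.mem_Icc, Finset.mem_Icc]
    omega
  calc S.card ≤ (A.biUnion (fun k' => (Finset.Icc (k'.1 - r) (k'.1 + r)) ×ˢ
      (Finset.Icc (k'.2 - r) (k'.2 + r)))).card := Finset.card_le_card hsub
    _ ≤ ∑ k' ∈ A, ((Finset.Icc (k'.1 - r) (k'.1 + r)) ×ˢ
      (Finset.Icc (k'.2 - r) (k'.2 + r))).card := Finset.card_biUnion_le
    _ = ∑ k' ∈ A, (2 * r + 1) ^ 2 := by
        apply Finset.sum_congr rfl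
        intro k' _
        rw [Finset.card_product, Int.card_Icc, Int.card_Icc]
        have e1 : (k'.1 + r + 1 - (k'.1 - r)).toNat = 2 * r + 1 := by omega
        have e2 : (k'.2 + r + 1 - (k'.2 - r)).toNat = 2 * r + 1 := by omega
        rw [e1, e2, pow_two]
    _ = (2 * r + 1) ^ 2 * A.card := by
        rw [Finset.sum_const, smul_eq_mul, mul_comm]

end HKC
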