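import Mathlib
import Pool.Agent.Lib_helper14.HKC.DefsC

set_option autoImplicit false

namespace HKC

open MeasureTheory QG HK

/-! integer coordinates on the torus; basic properties of `Lip` and `vol` -/

theorem of_add (n : ℕ) (a b a' b' : ℤ) : of n a b + of n a' b' = of n (a + a') (b + b') := by
  unfold of
  refine Prod.ext ?_ ?_
  · show (a : ZMod (2 * n)) + (a' : ZMod (2 * n)) = ((a + a' : ℤ) : ZMod (2 * n))
    push_cast
    rfl
  · show (b : ZMod (2 * n)) + (b' : ZMod (2 * n)) = ((b + b' : ℤ) : ZMod (2 * n))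
    push_cast
    rfl

theorem dir_of (n : ℕ) (i : Fin 4) : dir n i = of n (dz i).1 (dz i).2 := by
  fin_cases i <;> simp [dir, dz, of]

theorem ca_zmod {n : ℕ} {a b : ℤ} (h : ((a : ℤ) : ZMod (2 * n)) = ((b : ℤ) : ZMod (2 * n)))
    (h1 : |a - b| < 2 * n) : a = b := by
  have h2 : ((2 * n : ℕ) : ℤ) ∣ b - a := (ZMod.intCast_eq_intCast_iff_dvd_sub a b (2 * n)).1 h
  have h3 := Int.eq_zero_of_abs_lt_dvd h2 (by push_cast; rw [abs_sub_comm]; exact h1)
  omega

theorem of_inj (n : ℕ) {a b a' b' : ℤ} (ha : |a - a'| < 2 * n) (hb : |b - b'| < 2 * n)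
    (h : of n a b = of n a' b') : a = a' ∧ b = b' :=
  ⟨ca_zmod (congrArg Prod.fst h) ha, ca_zmod (congrArg Prod.snd h) hb⟩

/-- the ends of an edge -/
theorem sg_ends (n m : ℕ) (k : ℤ × ℤ) (i : Fin 4) :
    sg n m k i 0 = (ke n m k).1 ∧ sg n m k i (2 * m) = (ke n m (k + dz i)).1 := by
  constructor
  · unfold sg of ke
    refine Prod.ext ?_ ?_
    · show ((2 * m * k.1 + ((0 : ℕ) : ℤ) * (dz i).1 : ℤ) : ZMod (2 * n)) =
        ((2 * m * k.1 : ℤ) : ZMod (2 * n))
      congr 1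
      push_cast
      ring
    · show ((2 * m * k.2 + ((0 : ℕ) : ℤ) * (dz i).2 : ℤ) : ZMod (2 * n)) =
        ((2 * m * k.2 : ℤ) : ZMod (2 * n))
      congr 1
      push_cast
      ring
  · unfold sg of ke
    refine Prod.ext ?_ ?_
    · show ((2 * m * k.1 + ((2 * m : ℕ) : ℤ) * (dz i).1 : ℤ) : ZMod (2 * n)) =
        ((2 * m * (k.1 + (dz i).1) : ℤ) : ZMod (2 * n))
      congr 1
      push_cast
      ring
    · show ((2 * m * k.2 + ((2 * m : ℕ) : ℤ) * (dz i).2 : ℤ) : ZMod (2 * n)) =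
        ((2 * m * (k.2 + (dz i).2) : ℤ) : ZMod (2 * n))
      congr 1
      push_cast
      ring

theorem sg_succ (n m : ℕ) (k : ℤ × ℤ) (i : Fin 4) (j : ℕ) :
    sg n m k i (j + 1) = sg n m k i j + dir n i := by
  rw [dir_of]
  unfold sg
  rw [of_add]
  congr 1
  · push_cast
    ring
  · push_cast
    ring

theorem ca_abs {A : Type} {f g : (A → ℝ) → ℝ} [Fintype A] (hf : Measurable f) (hg : Measurable g)
    (c : ℝ) : MeasurableSet {φ | |f φ - g φ| ≤ c} :=
  measurableSet_le ((hf.sub hg).abs) measurable_const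

theorem lip_meas (n : ℕ) [NeZero n] (X : Finset (Tor n)) : MeasurableSet (Lip n X) := by
  have e : Lip n X = ⋂ y : Tor n, ⋂ i : Fin 4,
      {φ : Tor n → ℝ | y ∉ X → y + dir n i ∉ X → |φ (y + dir n i) - φ y| ≤ 1} := by
    ext φ
    unfold Lip
    simp only [Set.mem_ofPred_eq, Set.mem_iInter]
    exact ⟨fun h y i h1 h2 => h y h1 i h2, fun h y h1 i h2 => h y i h1 h2⟩
  rw [e]
  refine MeasurableSet.iInter fun y => MeasurableSet.iInter fun i => ?_
  by_cases h : y ∉ X ∧ y + dir n i ∉ X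
  · have e2 : {φ : Tor n → ℝ | y ∉ X → y + dir n i ∉ X → |φ (y + dir n i) - φ y| ≤ 1} =
        {φ : Tor n → ℝ | |φ (y + dir n i) - φ y| ≤ 1} := by
      ext φ
      exact ⟨fun h1 => h1 h.1 h.2, fun h1 _ _ => h1⟩
    rw [e2]
    exact ca_abs (measurable_pi_apply _) (measurable_pi_apply _) 1
  · have e2 : {φ : Tor n → ℝ | y ∉ X → y + dir n i ∉ X → |φ (y + dir n i) - φ y| ≤ 1} =
        Set.univ := by
      ext φ
      exact ⟨fun _ => trivial, fun _ h1 h2 => absurd ⟨h1, h2⟩ h⟩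
    rw [e2]
    exact MeasurableSet.univ

theorem hs_meas (n m : ℕ) [NeZero n] (e : (ℤ × ℤ) × Fin 4) : MeasurableSet (Hs n m e) := by
  have h1 : MeasurableSet {φ : Tor n → ℝ |
      ∀ j < 2 * m, |φ (sg n m e.1 e.2 (j + 1)) - φ (sg n m e.1 e.2 j)| ≤ 1} := by
    have e1 : {φ : Tor n → ℝ |
        ∀ j < 2 * m, |φ (sg n m e.1 e.2 (j + 1)) - φ (sg n m e.1 e.2 j)| ≤ 1} =
        ⋂ j : Fin (2 * m), {φ : Tor n → ℝ |
          |φ (sg n m e.1 e.2 (j.val + 1)) - φ (sg n m e.1 e.2 j.val)| ≤ 1} := by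
      ext φ
      simp only [Set.mem_ofPred_eq, Set.mem_iInter]
      exact ⟨fun h j => h j.1 j.2, fun h j hj => h ⟨j, hj⟩⟩
    rw [e1]
    exact MeasurableSet.iInter fun j => ca_abs (measurable_pi_apply _) (measurable_pi_apply _) 1
  have h2 : MeasurableSet {φ : Tor n → ℝ |
      (1 - ep) * (2 * m) < |φ (sg n m e.1 e.2 (2 * m)) - φ (sg n m e.1 e.2 0)|} := by
    have h3 : Measurable fun φ : Tor n → ℝ => φ (sg n m e.1 e.2 (2 * m)) :=
      measurable_pi_apply _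
    have h4 : Measurable fun φ : Tor n → ℝ => φ (sg n m e.1 e.2 0) := measurable_pi_apply _
    exact measurableSet_lt measurable_const (h3.sub h4).abs
  exact h1.inter h2

/-- convexity and symmetry of the set of the Lipschitz functions -/
theorem lip_conv (n : ℕ) (X : Finset (Tor n)) : Convex ℝ (Lip n X) ∧ (∀ φ ∈ Lip n X, -φ ∈ Lip n X) ∧
    ∀ φ ∈ Lip n X, ∀ r : ℝ, (fun y => φ y + r) ∈ Lip n X := by
  refine ⟨?_, ?_, ?_⟩
  · intro φ hφ ψ hψ t s ht hs hts y hy i hi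
    have h1 := hφ y hy i hi
    have h2 := hψ y hy i hi
    show |(t • φ + s • ψ) (y + dir n i) - (t • φ + s • ψ) y| ≤ 1
    simp only [Pi.add_apply, Pi.smul_apply, smul_eq_mul]
    have e : t * φ (y + dir n i) + s * ψ (y + dir n i) - (t * φ y + s * ψ y) =
        t * (φ (y + dir n i) - φ y) + s * (ψ (y + dir n i) - ψ y) := by ring
    rw [e]
    have h3 := abs_add_le (t * (φ (y + dir n i) - φ y)) (s * (ψ (y + dir n i) - ψ y))
    rw [abs_mul, abs_mul, abs_of_nonneg ht, abs_of_nonneg hs] at h3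
    have h4 := mul_le_mul_of_nonneg_left h1 ht
    have h5 := mul_le_mul_of_nonneg_left h2 hs
    linarith
  · intro φ hφ y hy i hi
    have h1 := hφ y hy i hi
    show |-φ (y + dir n i) - -φ y| ≤ 1
    have e : -φ (y + dir n i) - -φ y = -(φ (y + dir n i) - φ y) := by ring
    rw [e, abs_neg]
    exact h1
  · intro φ hφ r y hy i hi
    have h1 := hφ y hy i hi
    show |φ (y + dir n i) + r - (φ y + r)| ≤ 1
    rw [add_sub_add_right_eq_sub]
    exact h1

/-- `Lip n X` does not depend on the values in `X` and decreases with the set of the edges -/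
theorem lip_indep (n : ℕ) {X : Finset (Tor n)} {φ ψ : Tor n → ℝ} (h : ∀ y ∉ X, φ y = ψ y)
    (hφ : φ ∈ Lip n X) : ψ ∈ Lip n X := by
  intro y hy i hi
  rw [← h y hy, ← h _ hi]
  exact hφ y hy i hi

theorem lip_anti (n : ℕ) {X Y : Finset (Tor n)} (h : X ⊆ Y) : Lip n X ⊆ Lip n Y :=
  fun _ hφ y hy i hi => hφ y (fun h1 => hy (h h1)) i (fun h1 => hi (h h1))

theorem lmg_mono {A : Type} [Fintype A] [DecidableEq A] {F G : (A → ℝ) → ENNReal}
    (h : ∀ x, F x ≤ G x) (S : Finset A) (x : A → ℝ) : lmg F S x ≤ lmg G S x := by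
  unfold lmg
  exact lintegral_mono fun z => h _

theorem vol_mono (n : ℕ) [NeZero n] (p : Tor n) (X : Finset (Tor n)) {E E' : Set (Tor n → ℝ)}
    (h : ∀ φ ∈ Lip n X, φ ∈ E → φ ∈ E') : vol n p X E ≤ vol n p X E' := by
  unfold vol
  refine lmg_mono (fun x => ?_) _ _
  refine Set.indicator_le_indicator_of_subset ?_ (fun _ => zero_le) x
  exact fun φ hφ => ⟨hφ.1, h φ hφ.1 hφ.2⟩

end HKC
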