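import Mathlib
import Pool.Agent.Lib_helper14.HKC.DefsC
import Pool.Agent.Lib_helper12.HK.W.ab
import Pool.Agent.Lib_helper14.HKC.W.ca

set_option autoImplicit false

namespace HKC

open MeasureTheory QG HK

theorem cb_split {A : Type} [Fintype A] [DecidableEq A] {p x : A} {X : Finset A} (hx : x ∉ X)
    (hp : x ≠ p) : (Finset.univ.erase p) \ X = {x} ∪ ((Finset.univ.erase p) \ insert x X) ∧
      Disjoint {x} ((Finset.univ.erase p) \ insert x X) := by
  constructor
  · ext z
    simp only [Finset.mem_sdiff, Finset.mem_erase, Finset.mem_univ, Finset.mem_union,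
      Finset.mem_singleton, Finset.mem_insert, and_true]
    constructor
    · rintro ⟨h1, h2⟩
      by_cases h : z = x
      · exact Or.inl h
      · exact Or.inr ⟨h1, by tauto⟩
    · rintro (h | ⟨h1, h2⟩)
      · subst h
        exact ⟨hp, hx⟩
      · exact ⟨h1, by tauto⟩
  · rw [Finset.disjoint_singleton_left]
    simp

theorem cb_one {A : Type} [Fintype A] [DecidableEq A] {F : (A → ℝ) → ENNReal}
    (hF : Measurable F) (x : A) (φ : A → ℝ) :
    lmg F {x} φ = ∫⁻ r, F (Function.update φ x r) := by
  rw [lmg_erase hF (Finset.mem_singleton_self x)]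
  have h : ({x} : Finset A).erase x = ∅ := by simp
  rw [h, lmg_empty]

theorem cb_vol (n : ℕ) [NeZero n] {p x : Tor n} {X : Finset (Tor n)} (hx : x ∉ X) (hp : x ≠ p)
    {E : Set (Tor n → ℝ)} (hE : MeasurableSet E) :
    vol n p X E = lmg (fun φ => ∫⁻ r, (Lip n X ∩ E).indicator 1 (Function.update φ x r))
      ((Finset.univ.erase p) \ insert x X) 0 := by
  have hm : Measurable ((Lip n X ∩ E).indicator (1 : (Tor n → ℝ) → ENNReal)) :=
    measurable_one.indicator ((lip_meas n X).inter hE)
  unfold vol
  obtain ⟨h1, h2⟩ := cb_split (p := p) hx hp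
  rw [h1, lmg_union hm h2]
  congr 1
  funext φ
  exact cb_one hm x φ

theorem cb_dir (n : ℕ) [NeZero n] (i : Fin 4) : dir n i ≠ 0 := by
  have hn : 0 < n := Nat.pos_of_ne_zero (NeZero.ne n)
  have h1 : (1 : ZMod (2 * n)) ≠ 0 := by
    have : Fact (1 < 2 * n) := ⟨by omega⟩
    exact one_ne_zero
  intro h
  rw [Prod.ext_iff] at h
  obtain ⟨h2, h3⟩ := h
  fin_cases i
  · simp only [dir] at h2
    apply h1
    simpa using h2
  · simp only [dir] at h2
    apply h1
    simpa using h2
  · simp only [dir] at h3
    apply h1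
    simpa using h3
  · simp only [dir] at h3
    apply h1
    simpa using h3

theorem cb_op (n : ℕ) (i : Fin 4) : dir n (op i) = -dir n i := by
  fin_cases i <;> simp [dir, op]

theorem cb_lip (n : ℕ) [NeZero n] {x : Tor n} {X : Finset (Tor n)} {φ : Tor n → ℝ}
    (hφ : φ ∈ Lip n (insert x X)) {r : ℝ}
    (hr : ∀ i : Fin 4, x + dir n i ∉ X → |φ (x + dir n i) - r| ≤ 1) :
    Function.update φ x r ∈ Lip n X := by
  intro y hy i hyi
  have hne : ∀ j : Fin 4, x + dir n j ≠ x := by
    intro j hj
    exact cb_dir n j (by simpa using hj)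
  by_cases h1 : y = x
  · subst h1
    rw [Function.update_of_ne (hne i), Function.update_self]
    exact hr i hyi
  · by_cases h2 : y + dir n i = x
    · rw [h2, Function.update_self, Function.update_of_ne h1]
      have h3 : y = x + dir n (op i) := by
        rw [cb_op, ← h2]
        abel
      have h4 := hr (op i)
      rw [← h3] at h4
      rw [abs_sub_comm]
      exact h4 hy
    · rw [Function.update_of_ne h2, Function.update_of_ne h1]
      apply hφ y _ i
      · simp only [Finset.mem_insert, not_or]
        exact ⟨h2, hyi⟩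
      · simp only [Finset.mem_insert, not_or]
        exact ⟨h1, hy⟩

/-- the interval of the admissible values -/
theorem cb_itv (n : ℕ) [NeZero n] {x : Tor n} {X : Finset (Tor n)} {φ : Tor n → ℝ}
    (h : ∀ i j : Fin 4, x + dir n i ∉ X → x + dir n j ∉ X →
      |φ (x + dir n i) - φ (x + dir n j)| ≤ 1) :
    ∃ a b : ℝ, 1 ≤ b - a ∧ ∀ r ∈ Set.Icc a b, ∀ i : Fin 4, x + dir n i ∉ X →
      |φ (x + dir n i) - r| ≤ 1 := by
  classical
  set N : Finset (Fin 4) := Finset.univ.filter (fun i => x + dir n i ∉ X) with hN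
  by_cases hne : N.Nonempty
  · obtain ⟨i1, hi1, h1⟩ := Finset.exists_min_image N (fun i => φ (x + dir n i)) hne
    obtain ⟨i2, hi2, h2⟩ := Finset.exists_max_image N (fun i => φ (x + dir n i)) hne
    have hi1' : x + dir n i1 ∉ X := (Finset.mem_filter.1 hi1).2
    have hi2' : x + dir n i2 ∉ X := (Finset.mem_filter.1 hi2).2
    refine ⟨φ (x + dir n i2) - 1, φ (x + dir n i1) + 1, ?_, ?_⟩
    · have := abs_le.1 (h i2 i1 hi2' hi1')
      linarith [this.2]
    · rintro r ⟨hr1, hr2⟩ i hi
      have hi' : i ∈ N := Finset.mem_filter.2 ⟨Finset.mem_univ _, hi⟩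
      have h3 := h1 i hi'
      have h4 := h2 i hi'
      rw [abs_le]
      constructor <;> linarith
  · refine ⟨0, 1, by norm_num, ?_⟩
    intro r _ i hi
    exact absurd ⟨i, Finset.mem_filter.2 ⟨Finset.mem_univ _, hi⟩⟩ hne

/-- the site `x` integrated: the functions whose values at the neighbours of `x` differ by at most
`1` can be extended to `x` by values in an interval of length at least `1` -/
theorem vol_insert (n : ℕ) [NeZero n] {p x : Tor n} {X : Finset (Tor n)} (hx : x ∉ X) (hp : x ≠ p) :
    vol n p (insert x X) {φ | ∀ i j : Fin 4, x + dir n i ∉ X → x + dir n j ∉ X →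
      |φ (x + dir n i) - φ (x + dir n j)| ≤ 1} ≤ vol n p X Set.univ := by
  rw [cb_vol n hx hp MeasurableSet.univ]
  unfold vol
  apply lmg_mono
  intro φ
  by_cases hφ : φ ∈ Lip n (insert x X) ∩ {φ | ∀ i j : Fin 4, x + dir n i ∉ X →
      x + dir n j ∉ X → |φ (x + dir n i) - φ (x + dir n j)| ≤ 1}
  · rw [Set.indicator_of_mem hφ, Pi.one_apply]
    obtain ⟨a, b, hab, hI⟩ := cb_itv n hφ.2
    have h1 : (1 : ENNReal) ≤ ∫⁻ r, (Set.Icc a b).indicator 1 r := by
      rw [lintegral_indicator_one measurableSet_Icc, Real.volume_Icc]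
      exact ENNReal.one_le_ofReal.2 hab
    refine h1.trans ?_
    apply lintegral_mono
    intro r
    beta_reduce
    by_cases hr : r ∈ Set.Icc a b
    · have h2 : Function.update φ x r ∈ Lip n X ∩ Set.univ :=
        ⟨cb_lip n hφ.1 (hI r hr), trivial⟩
      rw [Set.indicator_of_mem hr, Set.indicator_of_mem h2]
      exact le_refl _
    · rw [Set.indicator_of_notMem hr]
      exact zero_le
  · rw [Set.indicator_of_notMem hφ]
    exact zero_le

/-- C6: the values at two different sites are close -/
theorem vol_near (n : ℕ) [NeZero n] {p y y' : Tor n} {X : Finset (Tor n)} (hy : y ∉ X) (hp : y ≠ p)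
    (hyy : y ≠ y') (r : ℝ) :
    vol n p X {φ | |φ y - φ y'| ≤ r} ≤ ENNReal.ofReal (2 * r) * vol n p (insert y X) Set.univ := by
  have hE : MeasurableSet {φ : Tor n → ℝ | |φ y - φ y'| ≤ r} :=
    measurableSet_le (by fun_prop) measurable_const
  rw [cb_vol n hy hp hE]
  unfold vol
  have hm : Measurable ((Lip n (insert y X) ∩ Set.univ).indicator
      (1 : (Tor n → ℝ) → ENNReal)) :=
    measurable_one.indicator ((lip_meas n _).inter MeasurableSet.univ)
  rw [← lmg_mul (G := fun _ => ENNReal.ofReal (2 * r)) hm _ (fun _ _ _ => rfl)]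
  apply lmg_mono
  intro φ
  by_cases hφ : φ ∈ Lip n (insert y X) ∩ Set.univ
  · rw [Set.indicator_of_mem hφ, Pi.one_apply, mul_one]
    calc ∫⁻ s, (Lip n X ∩ {φ | |φ y - φ y'| ≤ r}).indicator 1 (Function.update φ y s)
        ≤ ∫⁻ s, (Set.Icc (φ y' - r) (φ y' + r)).indicator 1 s := by
          apply lintegral_mono
          intro s
          beta_reduce
          by_cases hs : Function.update φ y s ∈ Lip n X ∩ {φ | |φ y - φ y'| ≤ r}
          · have h1 := hs.2
            simp only [Set.mem_ofPred_eq, Function.update_self,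
              Function.update_of_ne hyy.symm] at h1
            have h2 : s ∈ Set.Icc (φ y' - r) (φ y' + r) := by
              rw [abs_le] at h1
              exact ⟨by linarith [h1.1], by linarith [h1.2]⟩
            rw [Set.indicator_of_mem hs, Set.indicator_of_mem h2]
            exact le_refl _
          · rw [Set.indicator_of_notMem hs]
            exact zero_le
      _ = ENNReal.ofReal (2 * r) := by
          rw [lintegral_indicator_one measurableSet_Icc, Real.volume_Icc]
          congr 1
          ring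
  · rw [Set.indicator_of_notMem hφ, mul_zero]
    apply le_of_eq
    rw [lintegral_eq_zero_of_ae_eq_zero]
    apply Filter.Eventually.of_forall
    intro s
    apply Set.indicator_of_notMem
    intro hs
    apply hφ
    refine ⟨?_, trivial⟩
    apply lip_indep n _ (lip_anti n (Finset.subset_insert y X) hs.1)
    intro z hz
    have hzy : z ≠ y := by
      rintro rfl
      exact hz (Finset.mem_insert_self _ _)
    exact Function.update_of_ne hzy _ _

end HKC
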