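import Mathlib
import Pool.Agent.Lib_helper14.HKC.DefsC
import Pool.Agent.Lib_helper12.HK.W.ab
import Pool.Agent.Lib_helper14.HKC.W.ca

set_option autoImplicit false

namespace HKC

open MeasureTheory QG HK

/-- the pinned site does not matter for shift invariant functions -/
theorem lmg_pin {A : Type} [Fintype A] [DecidableEq A] {F : (A → ℝ) → ENNReal} (hF : Measurable F)
    (hs : ∀ (x : A → ℝ) (r : ℝ), F (fun y => x y + r) = F x) {S : Finset A} {p q : A} (hp : p ∉ S)
    (hq : q ∉ S) (hd : ∀ x y : A → ℝ, (∀ i, i ∈ S ∨ i = p ∨ i = q → x i = y i) → F x = F y) :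
    lmg F (insert q S) 0 = lmg F (insert p S) 0 := by
  by_cases hpq : p = q
  · rw [hpq]
  rw [lmg_erase hF (Finset.mem_insert_self q S), lmg_erase hF (Finset.mem_insert_self p S),
    Finset.erase_insert hq, Finset.erase_insert hp]
  have key : ∀ r : ℝ, lmg F S (Function.update 0 q r) = lmg F S (Function.update 0 p (-r)) := by
    intro r
    unfold lmg
    have h1 : ∀ y : S → ℝ, F (Function.updateFinset (Function.update 0 q r) S y) =
        F (Function.updateFinset (Function.update 0 p (-r)) S (y + fun _ => -r)) := by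
      intro y
      rw [← hs (Function.updateFinset (Function.update 0 q r) S y) (-r)]
      apply hd
      intro i hi
      by_cases hiS : i ∈ S
      · simp only [Function.updateFinset, hiS, dite_true, Pi.add_apply]
      · simp only [Function.updateFinset, hiS, dite_false]
        rcases hi with hi | rfl | rfl
        · exact absurd hi hiS
        · rw [Function.update_of_ne hpq, Function.update_self, Pi.zero_apply, zero_add]
        · rw [Function.update_self, Function.update_of_ne (Ne.symm hpq), Pi.zero_apply,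
            add_neg_cancel]
    simp only [h1]
    exact lintegral_add_right_eq_self (μ := (volume : Measure (S → ℝ)))
      (fun y => F (Function.updateFinset (Function.update 0 p (-r)) S y)) (fun _ => -r)
  simp only [key]
  exact lintegral_neg_eq_self (μ := (volume : Measure ℝ))
    (fun r => lmg F S (Function.update 0 p r))

theorem cc_set (n : ℕ) [NeZero n] {p q : Tor n} {X : Finset (Tor n)} (hq : q ∉ X)
    (hpq : p ≠ q) : (Finset.univ.erase p) \ X =
      insert q (Finset.univ \ (insert p (insert q X))) := by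
  ext i
  simp only [Finset.mem_sdiff, Finset.mem_erase, Finset.mem_univ, Finset.mem_insert, not_or,
    true_and, and_true]
  constructor
  · rintro ⟨h1, h2⟩
    by_cases h : i = q
    · exact Or.inl h
    · exact Or.inr ⟨h1, h, h2⟩
  · rintro (h | ⟨h1, _, h3⟩)
    · subst h
      exact ⟨Ne.symm hpq, hq⟩
    · exact ⟨h1, h3⟩

theorem vol_pin (n : ℕ) [NeZero n] {p q : Tor n} {X : Finset (Tor n)} (hp : p ∉ X) (hq : q ∉ X)
    {E : Set (Tor n → ℝ)} (hE : MeasurableSet E)
    (hs : ∀ φ ∈ E, ∀ r : ℝ, (fun y => φ y + r) ∈ E)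
    (hd : ∀ φ ψ : Tor n → ℝ, (∀ y ∉ X, φ y = ψ y) → φ ∈ E → ψ ∈ E) :
    vol n p X E = vol n q X E := by
  by_cases hpq : p = q
  · rw [hpq]
  unfold vol
  rw [cc_set n hq hpq, cc_set n hp (Ne.symm hpq)]
  rw [Finset.insert_comm q p X]
  have hmem : ∀ (φ : Tor n → ℝ) (r : ℝ), φ ∈ Lip n X ∩ E → (fun y => φ y + r) ∈ Lip n X ∩ E :=
    fun φ r h => ⟨(lip_conv n X).2.2 φ h.1 r, hs φ h.2 r⟩
  refine lmg_pin (measurable_one.indicator ((lip_meas n X).inter hE)) ?_ ?_ ?_ ?_
  · intro φ r
    by_cases h : φ ∈ Lip n X ∩ E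
    · rw [Set.indicator_of_mem h, Set.indicator_of_mem (hmem φ r h)]
      rfl
    · have h2 : (fun y => φ y + r) ∉ Lip n X ∩ E := by
        intro h3
        apply h
        have h4 := hmem _ (-r) h3
        have e : (fun y => (fun y => φ y + r) y + -r) = φ := by
          funext y
          ring
        rwa [e] at h4
      rw [Set.indicator_of_notMem h, Set.indicator_of_notMem h2]
  · simp
  · simp
  · intro φ ψ h
    have h1 : ∀ y ∉ X, φ y = ψ y := by
      intro y hy
      apply h
      by_cases h2 : y = p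
      · exact Or.inr (Or.inl h2)
      · by_cases h3 : y = q
        · exact Or.inr (Or.inr h3)
        · left
          simp [h2, h3, hy]
    by_cases h2 : φ ∈ Lip n X ∩ E
    · have h3 : ψ ∈ Lip n X ∩ E := ⟨lip_indep n h1 h2.1, hd φ ψ h1 h2.2⟩
      rw [Set.indicator_of_mem h2, Set.indicator_of_mem h3]
      rfl
    · have h3 : ψ ∉ Lip n X ∩ E := fun h4 => h2
        ⟨lip_indep n (fun y hy => (h1 y hy).symm) h4.1, hd ψ φ (fun y hy => (h1 y hy).symm) h4.2⟩
      rw [Set.indicator_of_notMem h2, Set.indicator_of_notMem h3]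

end HKC
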