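import Mathlib
import Pool.Agent.Lib_helper14.HKC.DefsC
import Pool.Agent.Lib_helper12.HK.W.ab
import Pool.Agent.Lib_helper12.HK.W.ac

set_option autoImplicit false

namespace HKC

open MeasureTheory QG HK

theorem cd_meas {A : Type} [Fintype A] (J : Finset A) (c : ℝ) :
    MeasurableSet {x : A → ℝ | ∀ j ∈ J, |x j| ≤ c} := by
  simp only [Set.ofPred_forall]
  exact MeasurableSet.iInter fun j => MeasurableSet.iInter fun _ =>
    measurableSet_le (measurable_pi_apply j).abs measurable_const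

theorem cd_meas' {A : Type} [Fintype A] (c : ℝ) :
    MeasurableSet {x : A → ℝ | ∀ j, |x j| ≤ c} := by
  simp only [Set.ofPred_forall]
  exact MeasurableSet.iInter fun j =>
    measurableSet_le (measurable_pi_apply j).abs measurable_const

theorem cd_box {A : Type} [Fintype A] [DecidableEq A] {Q : Set (A → ℝ)} (hQ : MeasurableSet Q)
    (hc : Convex ℝ Q) (he : ∀ x ∈ Q, -x ∈ Q) (S J : Finset A) (hJ : J ⊆ S) (R : ℝ) :
    lmg (fun x => (Q ∩ {x | ∀ i, |x i| ≤ R}).indicator (1 : (A → ℝ) → ENNReal) x *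
      {x : A → ℝ | ∀ j ∈ J, |x j| ≤ 4}.indicator 1 x) S 0 ≤
      8 ^ J.card * lmg (fun x => (Q ∩ {x | ∀ i, |x i| ≤ R}).indicator (1 : (A → ℝ) → ENNReal) x *
        {x : A → ℝ | ∀ j ∈ J, |x j| ≤ 1 / 2}.indicator 1 x) S 0 := by
  have hm : MeasurableSet (Q ∩ {x : A → ℝ | ∀ i, |x i| ≤ R}) := hQ.inter (cd_meas' R)
  refine lc_scale (measurable_one.indicator hm) ⟨1, ENNReal.one_ne_top, fun x => ?_⟩
    ⟨R, fun x hx i => ?_⟩ ?_ ?_ S J hJ
  · exact Set.indicator_le_self' (fun _ _ => zero_le_one) x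
  · have : x ∈ Q ∩ {x : A → ℝ | ∀ i, |x i| ≤ R} := by
      by_contra hn
      exact hx (Set.indicator_of_notMem hn _)
    exact this.2 i
  · intro x y
    by_cases hx : x ∈ Q ∩ {x : A → ℝ | ∀ i, |x i| ≤ R}
    · by_cases hy : y ∈ Q ∩ {x : A → ℝ | ∀ i, |x i| ≤ R}
      · have hz : (1 / 2 : ℝ) • (x + y) ∈ Q ∩ {x : A → ℝ | ∀ i, |x i| ≤ R} := by
          constructor
          · have := hc hx.1 hy.1 (a := 1 / 2) (b := 1 / 2) (by norm_num) (by norm_num)
              (by norm_num)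
            rw [smul_add]
            exact this
          · intro i
            have h1 := abs_le.1 (hx.2 i)
            have h2 := abs_le.1 (hy.2 i)
            simp only [Pi.smul_apply, Pi.add_apply, smul_eq_mul]
            rw [abs_le]
            constructor <;> linarith [h1.1, h1.2, h2.1, h2.2]
        rw [Set.indicator_of_mem hx, Set.indicator_of_mem hy, Set.indicator_of_mem hz]
        simp
      · rw [Set.indicator_of_notMem hy, mul_zero]
        exact zero_le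
    · rw [Set.indicator_of_notMem hx, zero_mul]
      exact zero_le
  · intro x
    have key : ∀ z : A → ℝ, z ∈ Q ∩ {x : A → ℝ | ∀ i, |x i| ≤ R} →
        -z ∈ Q ∩ {x : A → ℝ | ∀ i, |x i| ≤ R} := fun z hz =>
      ⟨he z hz.1, fun i => by rw [Pi.neg_apply, abs_neg]; exact hz.2 i⟩
    by_cases hx : x ∈ Q ∩ {x : A → ℝ | ∀ i, |x i| ≤ R}
    · rw [Set.indicator_of_mem hx, Set.indicator_of_mem (key x hx)]
      rfl
    · have hx' : -x ∉ Q ∩ {x : A → ℝ | ∀ i, |x i| ≤ R} := fun h => hx (by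
        have := key _ h
        rwa [neg_neg] at this)
      rw [Set.indicator_of_notMem hx, Set.indicator_of_notMem hx']

/-- mass near `0` for symmetric convex sets -/
theorem set_scale {A : Type} [Fintype A] [DecidableEq A] {Q : Set (A → ℝ)} (hQ : MeasurableSet Q)
    (hc : Convex ℝ Q) (he : ∀ x ∈ Q, -x ∈ Q) (S J : Finset A) (hJ : J ⊆ S) :
    lmg ((Q ∩ {x | ∀ j ∈ J, |x j| ≤ 4}).indicator 1) S 0 ≤
      8 ^ J.card * lmg ((Q ∩ {x | ∀ j ∈ J, |x j| ≤ 1 / 2}).indicator 1) S 0 := by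
  set G : ℕ → (A → ℝ) → ENNReal := fun R x =>
    (Q ∩ {x | ∀ i, |x i| ≤ (R : ℝ)}).indicator (1 : (A → ℝ) → ENNReal) x *
      {x : A → ℝ | ∀ j ∈ J, |x j| ≤ 4}.indicator 1 x with hG
  have hmono : ∀ R R' : ℕ, R ≤ R' → ∀ x, G R x ≤ G R' x := by
    intro R R' h x
    simp only [hG]
    refine mul_le_mul' ?_ le_rfl
    refine Set.indicator_le_indicator_of_subset ?_ (fun _ => zero_le) x
    intro z hz
    exact ⟨hz.1, fun i => (hz.2 i).trans (by exact_mod_cast h)⟩
  have hmeas : ∀ R, Measurable (G R) := fun R =>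
    (measurable_one.indicator (hQ.inter (cd_meas' _))).mul
      (measurable_one.indicator (cd_meas J 4))
  have hle : ∀ x, (Q ∩ {x | ∀ j ∈ J, |x j| ≤ 4}).indicator (1 : (A → ℝ) → ENNReal) x ≤
      ⨆ R, G R x := by
    intro x
    by_cases hx : x ∈ Q ∩ {x | ∀ j ∈ J, |x j| ≤ 4}
    · rw [Set.indicator_of_mem hx]
      obtain ⟨R, hR⟩ : ∃ R : ℕ, ∀ i, |x i| ≤ (R : ℝ) := by
        refine ⟨⌈∑ i, |x i|⌉₊, fun i => ?_⟩
        refine le_trans ?_ (Nat.le_ceil _)
        exact Finset.single_le_sum (f := fun i => |x i|) (fun _ _ => abs_nonneg _)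
          (Finset.mem_univ i)
      refine le_iSup_of_le R ?_
      have h1 : x ∈ Q ∩ {x : A → ℝ | ∀ i, |x i| ≤ (R : ℝ)} := ⟨hx.1, hR⟩
      simp only [hG]
      rw [Set.indicator_of_mem h1, Set.indicator_of_mem hx.2]
      simp
    · rw [Set.indicator_of_notMem hx]
      exact zero_le
  have h1 : lmg ((Q ∩ {x | ∀ j ∈ J, |x j| ≤ 4}).indicator 1) S 0 ≤ ⨆ R, lmg (G R) S 0 := by
    unfold lmg
    have h2 : ∫⁻ y : S → ℝ, ⨆ R, G R (Function.updateFinset 0 S y) =
        ⨆ R, ∫⁻ y : S → ℝ, G R (Function.updateFinset 0 S y) :=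
      lintegral_iSup (fun R => (hmeas R).comp measurable_updateFinset)
        (fun R R' h y => hmono R R' h _)
    rw [← h2]
    exact lintegral_mono fun y => hle _
  refine h1.trans (iSup_le fun R => ?_)
  refine (cd_box hQ hc he S J hJ R).trans ?_
  refine mul_le_mul' le_rfl ?_
  unfold lmg
  refine lintegral_mono fun y => ?_
  generalize Function.updateFinset (0 : A → ℝ) S y = w
  show (Q ∩ {x | ∀ i, |x i| ≤ (R : ℝ)}).indicator (1 : (A → ℝ) → ENNReal) w *
      {x : A → ℝ | ∀ j ∈ J, |x j| ≤ 1 / 2}.indicator 1 w ≤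
      (Q ∩ {x : A → ℝ | ∀ j ∈ J, |x j| ≤ 1 / 2}).indicator 1 w
  by_cases hx : w ∈ Q ∩ {x : A → ℝ | ∀ j ∈ J, |x j| ≤ 1 / 2}
  · rw [Set.indicator_of_mem hx, Set.indicator_of_mem hx.2]
    refine (mul_le_mul' (Set.indicator_le_self' (fun _ _ => zero_le_one) _) le_rfl).trans ?_
    simp
  · rw [Set.indicator_of_notMem hx]
    by_cases hx1 : w ∈ Q
    · have hx2 : w ∉ {x : A → ℝ | ∀ j ∈ J, |x j| ≤ 1 / 2} :=
        fun h => hx ⟨hx1, h⟩
      rw [Set.indicator_of_notMem hx2, mul_zero]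
    · have hx2 : w ∉ Q ∩ {x : A → ℝ | ∀ i, |x i| ≤ (R : ℝ)} :=
        fun h => hx1 h.1
      rw [Set.indicator_of_notMem hx2, zero_mul]

end HKC
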