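import Mathlib
import Pool.Agent.Lib_helper14.HKC.DefsC
import Pool.Agent.Lib_helper14.HKC.W.ca

/-!
# Project HK, Part C, block ce: the neighbours of a site that can be removed
-/

set_option autoImplicit false

namespace HKC

open MeasureTheory QG HK

theorem ce_dz_abs : ∀ i : Fin 4, -1 ≤ (dz i).1 ∧ (dz i).1 ≤ 1 ∧ -1 ≤ (dz i).2 ∧ (dz i).2 ≤ 1 := by
  decide

theorem ce_dz_sum : ∀ i : Fin 4, (dz i).1 * (dz i).2 = 0 ∧
    ((dz i).1 ≠ 0 ∨ (dz i).2 ≠ 0) := by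
  decide

theorem ce_dz_inj : ∀ i j : Fin 4, (dz i).1 = (dz j).1 → (dz i).2 = (dz j).2 → i = j := by
  decide

/-- the two directions are perpendicular -/
def ce_perp (i j : Fin 4) : Bool := decide (i.val < 2) != decide (j.val < 2)

theorem ce_corner : ∀ i j : Fin 4, ce_perp i j = true →
    ((dz i).1 + (dz j).1 = 1 ∨ (dz i).1 + (dz j).1 = -1) ∧
    ((dz i).2 + (dz j).2 = 1 ∨ (dz i).2 + (dz j).2 = -1) := by
  decide

theorem ce_other : ∀ i j i0 : Fin 4, ce_perp i j = false →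
    ∃ k : Fin 4, ce_perp i k = true ∧ ce_perp k j = true ∧ k ≠ i0 := by
  decide

theorem ce_abs {a b : ℤ} (n : ℕ) (hn : 2 ≤ n) (ha : -1 ≤ a) (ha' : a ≤ 1) (hb : -1 ≤ b)
    (hb' : b ≤ 1) : |a - b| < 2 * (n : ℤ) := by
  rw [abs_lt]
  constructor <;> omega

theorem ce_ne_self (n : ℕ) (hn : 2 ≤ n) (x : Tor n) {a b : ℤ} (ha : -1 ≤ a) (ha' : a ≤ 1)
    (hb : -1 ≤ b) (hb' : b ≤ 1) (hab : a ≠ 0 ∨ b ≠ 0) : x + of n a b ≠ x := by
  intro h
  have h0 : of n a b = of n 0 0 := by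
    have : of n a b = 0 := by
      have := congrArg (fun y => -x + y) h
      simpa using this
    rw [this]
    unfold of
    simp only [Int.cast_zero]
    rfl
  obtain ⟨h1, h2⟩ := of_inj n (ce_abs n hn ha ha' (by norm_num) (by norm_num))
    (ce_abs n hn hb hb' (by norm_num) (by norm_num)) h0
  rcases hab with h | h
  · exact h h1
  · exact h h2

theorem ce_side (n : ℕ) (hn : 2 ≤ n) {X : Finset (Tor n)} {x : Tor n} {i0 : Fin 4}
    (h : ∀ a b : ℤ, |a| ≤ 1 → |b| ≤ 1 → x + of n a b ∈ X → of n a b = dir n i0) {k : Fin 4}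
    (hk : k ≠ i0) : x + dir n k ∉ X := by
  intro hX
  rw [dir_of] at hX
  obtain ⟨h1, h2, h3, h4⟩ := ce_dz_abs k
  obtain ⟨g1, g2, g3, g4⟩ := ce_dz_abs i0
  have := h _ _ (abs_le.2 ⟨h1, h2⟩) (abs_le.2 ⟨h3, h4⟩) hX
  rw [dir_of] at this
  obtain ⟨e1, e2⟩ := of_inj n (ce_abs n hn h1 h2 g1 g2) (ce_abs n hn h3 h4 g3 g4) this
  exact hk (ce_dz_inj k i0 e1 e2)

theorem ce_two (n : ℕ) (hn : 2 ≤ n) {X : Finset (Tor n)} {x : Tor n} {i0 : Fin 4}
    (h : ∀ a b : ℤ, |a| ≤ 1 → |b| ≤ 1 → x + of n a b ∈ X → of n a b = dir n i0)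
    {φ : Tor n → ℝ} (hφ : φ ∈ Lip n (insert x X)) (i j : Fin 4) (hij : ce_perp i j = true)
    (hi : x + dir n i ∉ X) (hj : x + dir n j ∉ X) :
    |φ (x + dir n i) - φ (x + dir n j)| ≤ 2 := by
  obtain ⟨h1, h2, h3, h4⟩ := ce_dz_abs i
  obtain ⟨g1, g2, g3, g4⟩ := ce_dz_abs j
  obtain ⟨c1, c2⟩ := ce_corner i j hij
  obtain ⟨a, ha⟩ : ∃ a, a = (dz i).1 + (dz j).1 := ⟨_, rfl⟩
  obtain ⟨b, hb⟩ : ∃ b, b = (dz i).2 + (dz j).2 := ⟨_, rfl⟩
  rw [← ha] at c1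
  rw [← hb] at c2
  have hc : x + dir n i + dir n j = x + of n a b := by
    rw [dir_of n i, dir_of n j, add_assoc, of_add, ha, hb]
  have hcX : x + of n a b ∉ insert x X := by
    rw [Finset.mem_insert]
    rintro (hx | hX)
    · exact ce_ne_self n hn x (by omega) (by omega) (by omega) (by omega) (by omega) hx
    · have := h a b (abs_le.2 ⟨by omega, by omega⟩) (abs_le.2 ⟨by omega, by omega⟩) hX
      rw [dir_of] at this
      obtain ⟨f1, f2, f3, f4⟩ := ce_dz_abs i0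
      obtain ⟨e1, e2⟩ := of_inj n (ce_abs n hn (by omega) (by omega) f1 f2)
        (ce_abs n hn (by omega) (by omega) f3 f4) this
      obtain ⟨k1, -⟩ := ce_dz_sum i0
      rw [← e1, ← e2, mul_eq_zero] at k1
      omega
  have hmem : ∀ k : Fin 4, x + dir n k ∉ X → x + dir n k ∉ insert x X := by
    intro k hk
    rw [Finset.mem_insert]
    rintro (hx | hX)
    · rw [dir_of] at hx
      obtain ⟨f1, f2, f3, f4⟩ := ce_dz_abs k
      exact ce_ne_self n hn x f1 f2 f3 f4 (ce_dz_sum k).2 hx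
    · exact hk hX
  have s1 := hφ (x + dir n i) (hmem i hi) j (by rw [hc]; exact hcX)
  have s2 := hφ (x + dir n j) (hmem j hj) i (by rw [add_right_comm, hc]; exact hcX)
  rw [add_right_comm] at s2
  rw [abs_le] at s1 s2 ⊢
  constructor <;> linarith [s1.1, s1.2, s2.1, s2.2]

theorem lip_four (n : ℕ) (hn : 2 ≤ n) {X : Finset (Tor n)} {x : Tor n} (h : Rm n X x)
    {φ : Tor n → ℝ} (hφ : φ ∈ Lip n (insert x X)) (i j : Fin 4) (hi : x + dir n i ∉ X)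
    (hj : x + dir n j ∉ X) : |φ (x + dir n i) - φ (x + dir n j)| ≤ 4 := by
  obtain ⟨-, i0, h0⟩ := h
  rcases hij : ce_perp i j with _ | _
  · obtain ⟨k, k1, k2, k3⟩ := ce_other i j i0 hij
    have hk := ce_side n hn h0 k3
    have s1 := ce_two n hn h0 hφ i k k1 hi hk
    have s2 := ce_two n hn h0 hφ k j k2 hk hj
    rw [abs_le] at s1 s2 ⊢
    constructor <;> linarith [s1.1, s1.2, s2.1, s2.2]
  · exact (ce_two n hn h0 hφ i j hij hi hj).trans (by norm_num)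

theorem rm_nb (n : ℕ) (hn : 2 ≤ n) {X : Finset (Tor n)} {x : Tor n} (h : Rm n X x) :
    (∃ i, x + dir n i ∉ X) ∧ ∀ i, x + dir n i ≠ x := by
  obtain ⟨-, i0, h0⟩ := h
  refine ⟨?_, fun i hx => ?_⟩
  · obtain ⟨k, -, -, k3⟩ := ce_other 0 0 i0 rfl
    exact ⟨k, ce_side n hn h0 k3⟩
  · rw [dir_of] at hx
    obtain ⟨f1, f2, f3, f4⟩ := ce_dz_abs i
    exact ce_ne_self n hn x f1 f2 f3 f4 (ce_dz_sum i).2 hx

end HKC
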