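import Mathlib
import Pool.Agent.Lib_helper14.HKC.DefsC
import Pool.Agent.Lib_helper12.HK.W.ab
import Pool.Agent.Lib_helper14.HKC.W.ca
import Pool.Agent.Lib_helper14.HKC.W.cb
import Pool.Agent.Lib_helper14.HKC.W.cc
import Pool.Agent.Lib_helper14.HKC.W.cd
import Pool.Agent.Lib_helper14.HKC.W.ce

set_option autoImplicit false

namespace HKC

open MeasureTheory QG HK

/-- inequalities of sets inside a partial integral started at `0` -/
theorem cf_mono {A : Type} [Fintype A] [DecidableEq A] {Q R : Set (A → ℝ)} (S : Finset A)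
    (h : ∀ φ : A → ℝ, (∀ i ∉ S, φ i = 0) → φ ∈ Q → φ ∈ R) :
    lmg (Q.indicator 1) S 0 ≤ lmg (R.indicator 1) S 0 := by
  unfold lmg
  refine lintegral_mono fun y => ?_
  by_cases hQ : Function.updateFinset (0 : A → ℝ) S y ∈ Q
  · have hR := h (Function.updateFinset (0 : A → ℝ) S y) (fun i hi => by
      simp [Function.updateFinset, hi]) hQ
    rw [Set.indicator_of_mem hQ, Set.indicator_of_mem hR]
  · rw [Set.indicator_of_notMem hQ]
    exact zero_le

/-- the condition of `vol_insert` -/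
theorem cf_E (n : ℕ) [NeZero n] (x : Tor n) (X : Finset (Tor n)) :
    MeasurableSet {φ : Tor n → ℝ | ∀ i j : Fin 4, x + dir n i ∉ X → x + dir n j ∉ X →
      |φ (x + dir n i) - φ (x + dir n j)| ≤ 1} := by
  simp only [Set.ofPred_forall]
  refine MeasurableSet.iInter fun i => MeasurableSet.iInter fun j => MeasurableSet.iInter fun _ =>
    MeasurableSet.iInter fun _ => measurableSet_le ?_ measurable_const
  exact ((measurable_pi_apply (x + dir n i)).sub (measurable_pi_apply (x + dir n j))).abs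

/-- C2: removal of one site -/
theorem rm_one (n : ℕ) [NeZero n] (hn : 2 ≤ n) {p x : Tor n} {X : Finset (Tor n)} (hp : p ∉ X)
    (hx : x ≠ p) (h : Rm n X x) :
    vol n p (insert x X) Set.univ ≤ 512 * vol n p X Set.univ := by
  obtain ⟨⟨i0, hi0⟩, hne⟩ := rm_nb n hn h
  set Y : Finset (Tor n) := insert x X with hY
  set y0 : Tor n := x + dir n i0 with hy0
  have hpY : p ∉ Y := by
    rw [hY, Finset.mem_insert]
    rintro (h1 | h1)
    · exact hx h1.symm
    · exact hp h1
  have hy0Y : y0 ∉ Y := by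
    rw [hY, Finset.mem_insert]
    rintro (h1 | h1)
    · exact hne i0 h1
    · exact hi0 h1
  have e1 : vol n p Y Set.univ = vol n y0 Y Set.univ :=
    vol_pin n hpY hy0Y MeasurableSet.univ (fun _ _ _ => trivial) (fun _ _ _ _ => trivial)
  set S : Finset (Tor n) := (Finset.univ.erase y0) \ Y with hS
  set J : Finset (Tor n) := ((Finset.univ.image fun j : Fin 4 => x + dir n j) \ X).erase y0 with hJ
  have hmemJ : ∀ j : Fin 4, x + dir n j ∉ X → x + dir n j = y0 ∨ x + dir n j ∈ J := by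
    intro j hj
    by_cases hjy : x + dir n j = y0
    · exact Or.inl hjy
    · right
      rw [hJ, Finset.mem_erase, Finset.mem_sdiff]
      exact ⟨hjy, Finset.mem_image_of_mem _ (Finset.mem_univ j), hj⟩
  have hJS : J ⊆ S := by
    intro y hy
    rw [hJ, Finset.mem_erase, Finset.mem_sdiff, Finset.mem_image] at hy
    obtain ⟨hy1, ⟨j, -, rfl⟩, hy3⟩ := hy
    rw [hS, Finset.mem_sdiff, Finset.mem_erase, hY, Finset.mem_insert]
    refine ⟨⟨hy1, Finset.mem_univ _⟩, ?_⟩
    rintro (h1 | h1)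
    · exact hne j h1
    · exact hy3 h1
  have hcard : J.card ≤ 3 := by
    have h0 : y0 ∈ (Finset.univ.image fun j : Fin 4 => x + dir n j) \ X := by
      rw [Finset.mem_sdiff]
      exact ⟨Finset.mem_image_of_mem _ (Finset.mem_univ i0), hi0⟩
    have h1 : J.card = ((Finset.univ.image fun j : Fin 4 => x + dir n j) \ X).card - 1 :=
      Finset.card_erase_of_mem h0
    have h2 : ((Finset.univ.image fun j : Fin 4 => x + dir n j) \ X).card ≤ 4 :=
      le_trans (Finset.card_le_card Finset.sdiff_subset) (le_trans Finset.card_image_le (by simp))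
    omega
  have hy0S : y0 ∉ S := by
    rw [hS, Finset.mem_sdiff, Finset.mem_erase]
    exact fun h1 => h1.1.1 rfl
  obtain ⟨hconv, hsymm, -⟩ := lip_conv n Y
  have e2 : vol n y0 Y Set.univ ≤
      lmg ((Lip n Y ∩ {φ | ∀ j ∈ J, |φ j| ≤ 4}).indicator 1) S 0 := by
    refine cf_mono S fun φ h0 hφ => ⟨hφ.1, fun j hj => ?_⟩
    have hj' := hj
    rw [hJ, Finset.mem_erase, Finset.mem_sdiff, Finset.mem_image] at hj
    obtain ⟨hy1, ⟨j, -, rfl⟩, hy3⟩ := hj
    have h4 := lip_four n hn h hφ.1 j i0 hy3 hi0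
    rw [← hy0, h0 y0 hy0S, sub_zero] at h4
    exact h4
  have e3 := set_scale (lip_meas n Y) hconv hsymm S J hJS
  set E : Set (Tor n → ℝ) := {φ : Tor n → ℝ | ∀ i j : Fin 4, x + dir n i ∉ X →
    x + dir n j ∉ X → |φ (x + dir n i) - φ (x + dir n j)| ≤ 1} with hE
  have e4 : lmg ((Lip n Y ∩ {φ | ∀ j ∈ J, |φ j| ≤ 1 / 2}).indicator 1) S 0 ≤ vol n y0 Y E := by
    refine cf_mono S fun φ h0 hφ => ⟨hφ.1, fun i j hi hj => ?_⟩
    have hb : ∀ i : Fin 4, x + dir n i ∉ X → |φ (x + dir n i)| ≤ 1 / 2 := by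
      intro i hi
      rcases hmemJ i hi with h1 | h1
      · rw [h1, h0 y0 hy0S, abs_zero]
        norm_num
      · exact hφ.2 _ h1
    have h1 := hb i hi
    have h2 := hb j hj
    rw [abs_le] at h1 h2 ⊢
    constructor <;> linarith [h1.1, h1.2, h2.1, h2.2]
  have e5 : vol n y0 Y E = vol n p Y E := by
    refine vol_pin n hy0Y hpY (cf_E n x X) (fun φ hφ r i j hi hj => ?_) (fun φ ψ hφψ hφ i j hi hj => ?_)
    · have h1 := hφ i j hi hj
      simpa using h1
    · have hout : ∀ i : Fin 4, x + dir n i ∉ X → φ (x + dir n i) = ψ (x + dir n i) := by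
        intro i hi
        refine hφψ _ ?_
        rw [hY, Finset.mem_insert]
        rintro (h1 | h1)
        · exact hne i h1
        · exact hi h1
      rw [← hout i hi, ← hout j hj]
      exact hφ i j hi hj
  have e6 : vol n p Y E ≤ vol n p X Set.univ := vol_insert n h.1 hx
  calc vol n p Y Set.univ = vol n y0 Y Set.univ := e1
    _ ≤ lmg ((Lip n Y ∩ {φ | ∀ j ∈ J, |φ j| ≤ 4}).indicator 1) S 0 := e2
    _ ≤ 8 ^ J.card * lmg ((Lip n Y ∩ {φ | ∀ j ∈ J, |φ j| ≤ 1 / 2}).indicator 1) S 0 := e3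
    _ ≤ 8 ^ 3 * vol n y0 Y E := mul_le_mul' (pow_le_pow_right₀ (by norm_num) hcard) e4
    _ = 512 * vol n p Y E := by rw [e5]; norm_num
    _ ≤ 512 * vol n p X Set.univ := mul_le_mul' le_rfl e6

/-- C3: removal of a list of sites -/
theorem rm_list (n : ℕ) [NeZero n] (hn : 2 ≤ n) {p : Tor n} (l : List (Tor n)) (hl : RmL n l)
    (hp : p ∉ l) : vol n p l.toFinset Set.univ ≤ 512 ^ l.length * vol n p ∅ Set.univ := by
  induction l with
  | nil => simp
  | cons x l ih =>
    obtain ⟨h1, h2⟩ := hl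
    rw [List.mem_cons, not_or] at hp
    have hp' : p ∉ l.toFinset := by
      rw [List.mem_toFinset]
      exact hp.2
    rw [List.toFinset_cons, List.length_cons, pow_succ', mul_assoc]
    exact le_trans (rm_one n hn hp' (Ne.symm hp.1) h1) (mul_le_mul' le_rfl (ih h2 hp.2))

end HKC
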