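import Mathlib
import Pool.Agent.Lib_helper14.HKC.DefsC
import Pool.Agent.Lib_helper12.HK.W.ab
import Pool.Agent.Lib_helper14.HKC.W.ca

set_option autoImplicit false

namespace HKC

open MeasureTheory QG HK

theorem ch_walk (n : ℕ) {φ : Tor n → ℝ} (hφ : φ ∈ Lip n ∅) (p : Tor n) (a b : ℕ) :
    |φ (p + ((a : ZMod (2 * n)), (b : ZMod (2 * n)))) - φ p| ≤ a + b := by
  have st : ∀ (y : Tor n) (i : Fin 4), |φ (y + dir n i) - φ y| ≤ 1 := fun y i =>
    hφ y (by simp) i (by simp)
  induction a with
  | zero =>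
    induction b with
    | zero =>
      have e : p + (((0 : ℕ) : ZMod (2 * n)), ((0 : ℕ) : ZMod (2 * n))) = p := by
        ext <;> simp
      rw [e]
      simp
    | succ b ih =>
      have e : p + (((0 : ℕ) : ZMod (2 * n)), ((b + 1 : ℕ) : ZMod (2 * n))) =
          (p + (((0 : ℕ) : ZMod (2 * n)), (b : ZMod (2 * n)))) + dir n 2 := by
        have hd : dir n 2 = (0, 1) := rfl
        rw [hd, add_assoc]
        congr 1
        ext <;> simp
      rw [e]
      have h1 := st (p + (((0 : ℕ) : ZMod (2 * n)), (b : ZMod (2 * n)))) 2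
      generalize φ (p + (((0 : ℕ) : ZMod (2 * n)), (b : ZMod (2 * n))) + dir n 2) = u at h1 ⊢
      generalize φ (p + (((0 : ℕ) : ZMod (2 * n)), (b : ZMod (2 * n)))) = v at h1 ih
      have h2 := abs_le.1 h1
      have h3 := abs_le.1 ih
      push_cast at h3 ⊢
      rw [abs_le]
      constructor <;> linarith [h2.1, h2.2, h3.1, h3.2]
  | succ a ih =>
    have e : p + (((a + 1 : ℕ) : ZMod (2 * n)), (b : ZMod (2 * n))) =
        (p + ((a : ZMod (2 * n)), (b : ZMod (2 * n)))) + dir n 1 := by
      have hd : dir n 1 = (1, 0) := rfl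
      rw [hd, add_assoc]
      congr 1
      ext <;> simp
    rw [e]
    have h1 := st (p + ((a : ZMod (2 * n)), (b : ZMod (2 * n)))) 1
    generalize φ (p + ((a : ZMod (2 * n)), (b : ZMod (2 * n))) + dir n 1) = u at h1 ⊢
    generalize φ (p + ((a : ZMod (2 * n)), (b : ZMod (2 * n)))) = v at h1 ih
    have h2 := abs_le.1 h1
    have h3 := abs_le.1 ih
    push_cast at h3 ⊢
    rw [abs_le]
    constructor <;> linarith [h2.1, h2.2, h3.1, h3.2]

theorem ch_bd (n : ℕ) [NeZero n] {φ : Tor n → ℝ} (hφ : φ ∈ Lip n ∅) (p : Tor n) (hp : φ p = 0)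
    (y : Tor n) : |φ y| ≤ 4 * n := by
  have : NeZero (2 * n) := ⟨by have := NeZero.ne n; omega⟩
  have h := ch_walk n hφ p (y.1 - p.1).val (y.2 - p.2).val
  have e : p + (((y.1 - p.1).val : ZMod (2 * n)), ((y.2 - p.2).val : ZMod (2 * n))) = y := by
    rw [ZMod.natCast_zmod_val, ZMod.natCast_zmod_val]
    ext <;> simp
  rw [e, hp, sub_zero] at h
  have h1 : ((y.1 - p.1).val : ℝ) ≤ 2 * n := by exact_mod_cast (ZMod.val_lt (y.1 - p.1)).le
  have h2 : ((y.2 - p.2).val : ℝ) ≤ 2 * n := by exact_mod_cast (ZMod.val_lt (y.2 - p.2)).le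
  linarith

/-- C1 -/
theorem vol_pos (n : ℕ) [NeZero n] (p : Tor n) : vol n p ∅ Set.univ ≠ 0 := by
  classical
  have : NeZero (2 * n) := ⟨by have := NeZero.ne n; omega⟩
  unfold vol lmg
  set S := (Finset.univ.erase p) \ (∅ : Finset (Tor n)) with hS
  have hbox : ∀ y : S → ℝ, (Set.Icc (fun _ : S => (-1 / 2 : ℝ)) (fun _ => 1 / 2)).indicator
      (1 : (S → ℝ) → ENNReal) y ≤
      (Lip n ∅ ∩ Set.univ).indicator 1 (Function.updateFinset (0 : Tor n → ℝ) S y) := by
    intro y
    by_cases hy : y ∈ Set.Icc (fun _ : S => (-1 / 2 : ℝ)) (fun _ => 1 / 2)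
    · have hv : ∀ z : Tor n, |Function.updateFinset (0 : Tor n → ℝ) S y z| ≤ 1 / 2 := by
        intro z
        unfold Function.updateFinset
        split
        · rename_i hz
          have h1 := hy.1 ⟨z, hz⟩
          have h2 := hy.2 ⟨z, hz⟩
          simp only at h1 h2
          rw [abs_le]
          constructor <;> linarith
        · simp
      have hm : Function.updateFinset (0 : Tor n → ℝ) S y ∈ Lip n ∅ ∩ Set.univ := by
        refine ⟨?_, Set.mem_univ _⟩
        intro z _ i _
        have h1 := abs_le.1 (hv z)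
        have h2 := abs_le.1 (hv (z + dir n i))
        rw [abs_le]
        constructor <;> linarith [h1.1, h1.2, h2.1, h2.2]
      rw [Set.indicator_of_mem hy, Set.indicator_of_mem hm]
      simp
    · rw [Set.indicator_of_notMem hy]
      exact zero_le
  have h1 : (1 : ENNReal) ≤ ∫⁻ y : S → ℝ, (Lip n ∅ ∩ Set.univ).indicator 1
      (Function.updateFinset (0 : Tor n → ℝ) S y) := by
    calc (1 : ENNReal) = ∫⁻ y : S → ℝ,
          (Set.Icc (fun _ : S => (-1 / 2 : ℝ)) (fun _ => 1 / 2)).indicator 1 y := by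
          rw [lintegral_indicator_one measurableSet_Icc, Real.volume_Icc_pi]
          symm
          apply Finset.prod_eq_one
          intro i _
          norm_num
      _ ≤ _ := lintegral_mono hbox
  intro h0
  rw [h0] at h1
  exact absurd h1 (by simp)

theorem vol_fin (n : ℕ) [NeZero n] (p : Tor n) : vol n p ∅ Set.univ ≠ ⊤ := by
  classical
  have : NeZero (2 * n) := ⟨by have := NeZero.ne n; omega⟩
  unfold vol lmg
  set S := (Finset.univ.erase p) \ (∅ : Finset (Tor n)) with hS
  have hbox : ∀ y : S → ℝ,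
      (Lip n ∅ ∩ Set.univ).indicator 1 (Function.updateFinset (0 : Tor n → ℝ) S y) ≤
      (Set.Icc (fun _ : S => (-(4 * n) : ℝ)) (fun _ => 4 * n)).indicator
      (1 : (S → ℝ) → ENNReal) y := by
    intro y
    by_cases hm : Function.updateFinset (0 : Tor n → ℝ) S y ∈ Lip n ∅ ∩ Set.univ
    · have hp : Function.updateFinset (0 : Tor n → ℝ) S y p = 0 := by
        unfold Function.updateFinset
        split
        · rename_i hz
          exact absurd hz (by simp [hS])
        · rfl
      have hy : y ∈ Set.Icc (fun _ : S => (-(4 * n) : ℝ)) (fun _ => 4 * n) := by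
        have hb : ∀ i : S, |y i| ≤ 4 * n := by
          intro i
          have h1 := ch_bd n hm.1 p hp i.1
          have h2 : Function.updateFinset (0 : Tor n → ℝ) S y i.1 = y i := by
            unfold Function.updateFinset
            rw [dif_pos i.2]
          rwa [h2] at h1
        exact ⟨fun i => (abs_le.1 (hb i)).1, fun i => (abs_le.1 (hb i)).2⟩
      rw [Set.indicator_of_mem hy, Set.indicator_of_mem hm]
      simp
    · rw [Set.indicator_of_notMem hm]
      exact zero_le
  refine ne_top_of_le_ne_top ?_ (lintegral_mono hbox)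
  rw [lintegral_indicator_one measurableSet_Icc, Real.volume_Icc_pi]
  exact ENNReal.prod_ne_top fun i _ => ENNReal.ofReal_ne_top

end HKC
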