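import Mathlib
import Pool.Agent.Lib_helper14.HKC.DefsC
import Pool.Agent.Lib_helper14.HKC.W.ca

set_option autoImplicit false

namespace HKC

open MeasureTheory QG HK

theorem cl_dz (i : Fin 4) : |(dz i).1| ≤ 1 ∧ |(dz i).2| ≤ 1 := by
  fin_cases i <;> simp [dz]

theorem cl_mul {u M : ℤ} {j : ℕ} (hu : |u| ≤ 1) (hj : (j : ℤ) ≤ M) : |(j : ℤ) * u| ≤ M := by
  rw [abs_mul, abs_of_nonneg (Int.natCast_nonneg j)]
  nlinarith [abs_nonneg u, Int.natCast_nonneg j]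

/-- coordinates in the box -/
theorem lam_coord (n m : ℕ) (hm : 1 ≤ m) {k : ℤ × ℤ} (hk : k ∈ Lam n m) :
    -(n : ℤ) ≤ 4 * (2 * m * k.1) ∧ 4 * (2 * m * k.1) ≤ 5 * n ∧
      -(n : ℤ) ≤ 4 * (2 * m * k.2) ∧ 4 * (2 * m * k.2) ≤ 5 * n := by
  simp only [Lam, Finset.mem_product, Finset.mem_Icc] at hk
  obtain ⟨⟨h1, h2⟩, ⟨h3, h4⟩⟩ := hk
  have hA : (8 * m : ℤ) * ((n / (8 * m) : ℕ) : ℤ) ≤ n := by
    exact_mod_cast Nat.mul_div_le n (8 * m)
  have hB : (8 * m : ℤ) * ((5 * n / (8 * m) : ℕ) : ℤ) ≤ 5 * n := by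
    exact_mod_cast Nat.mul_div_le (5 * n) (8 * m)
  have hm0 : (0 : ℤ) ≤ 8 * m := by positivity
  refine ⟨?_, ?_, ?_, ?_⟩
  · nlinarith [mul_le_mul_of_nonneg_left h1 hm0]
  · nlinarith [mul_le_mul_of_nonneg_left h2 hm0]
  · nlinarith [mul_le_mul_of_nonneg_left h3 hm0]
  · nlinarith [mul_le_mul_of_nonneg_left h4 hm0]

theorem sg_inj (n m : ℕ) (hm : 2 ≤ m) (hn : 64 * m ≤ n) (k : ℤ × ℤ) (i : Fin 4) :
    Set.InjOn (sg n m k i) (Set.Iic (2 * m)) := by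
  intro j hj j' hj' h
  simp only [Set.mem_Iic] at hj hj'
  unfold sg at h
  have hj1 : (j : ℤ) ≤ 2 * m := by exact_mod_cast hj
  have hj2 : (j' : ℤ) ≤ 2 * m := by exact_mod_cast hj'
  have hn1 : (64 : ℤ) * m ≤ n := by exact_mod_cast hn
  have hm1 : (2 : ℤ) ≤ m := by exact_mod_cast hm
  obtain ⟨u1, u2⟩ := cl_dz i
  have a1 := abs_le.1 (cl_mul u1 hj1)
  have a2 := abs_le.1 (cl_mul u2 hj1)
  have a3 := abs_le.1 (cl_mul u1 hj2)
  have a4 := abs_le.1 (cl_mul u2 hj2)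
  obtain ⟨e1, e2⟩ := of_inj n (by rw [abs_lt]; constructor <;> linarith)
    (by rw [abs_lt]; constructor <;> linarith) h
  fin_cases i
  · simp [dz] at e1
    exact e1
  · simp [dz] at e1
    exact e1
  · simp [dz] at e2
    exact e2
  · simp [dz] at e2
    exact e2

/-- sites on far edges are far from each other -/
theorem sg_far (n m : ℕ) (hm : 2 ≤ m) (hn : 64 * m ≤ n) {k k' : ℤ × ℤ} {i i' : Fin 4}
    (hk : k ∈ Lam n m) (hk' : k' ∈ Lam n m) (hd : 3 ≤ di k k') {j j' : ℕ} (hj : j ≤ 2 * m)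
    (hj' : j' ≤ 2 * m) {a b : ℤ} (ha : |a| ≤ 1) (hb : |b| ≤ 1) :
    sg n m k i j + of n a b ≠ sg n m k' i' j' := by
  intro h
  unfold sg at h
  rw [of_add] at h
  have hj1 : (j : ℤ) ≤ 2 * m := by exact_mod_cast hj
  have hj2 : (j' : ℤ) ≤ 2 * m := by exact_mod_cast hj'
  have hn1 : (64 : ℤ) * m ≤ n := by exact_mod_cast hn
  have hm1 : (2 : ℤ) ≤ m := by exact_mod_cast hm
  obtain ⟨u1, u2⟩ := cl_dz i
  obtain ⟨u3, u4⟩ := cl_dz i'
  have a1 := abs_le.1 (cl_mul u1 hj1)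
  have a2 := abs_le.1 (cl_mul u2 hj1)
  have a3 := abs_le.1 (cl_mul u3 hj2)
  have a4 := abs_le.1 (cl_mul u4 hj2)
  obtain ⟨b1, b2, b3, b4⟩ := lam_coord n m (by omega) hk
  obtain ⟨c1, c2, c3, c4⟩ := lam_coord n m (by omega) hk'
  have ha' := abs_le.1 ha
  have hb' := abs_le.1 hb
  obtain ⟨e1, e2⟩ := of_inj n (by rw [abs_lt]; constructor <;> linarith)
    (by rw [abs_lt]; constructor <;> linarith) h
  have f1 : |k.1 - k'.1| < 3 := by
    have h1 : |2 * (m : ℤ) * (k.1 - k'.1)| < 2 * m * 3 := by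
      rw [abs_lt]
      constructor <;> linarith
    rw [abs_mul, abs_of_nonneg (by positivity : (0 : ℤ) ≤ 2 * m)] at h1
    exact lt_of_mul_lt_mul_left h1 (by positivity)
  have f2 : |k.2 - k'.2| < 3 := by
    have h1 : |2 * (m : ℤ) * (k.2 - k'.2)| < 2 * m * 3 := by
      rw [abs_lt]
      constructor <;> linarith
    rw [abs_mul, abs_of_nonneg (by positivity : (0 : ℤ) ≤ 2 * m)] at h1
    exact lt_of_mul_lt_mul_left h1 (by positivity)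
  rw [← Int.natCast_natAbs] at f1 f2
  unfold di at hd
  omega

/-- the pinned site is not on an edge of the box -/
theorem sg_pp (n m : ℕ) [NeZero n] (hm : 2 ≤ m) (hn : 64 * m ≤ n) {k : ℤ × ℤ} {i : Fin 4}
    (hk : k ∈ Lam n m) {j : ℕ} (hj : j ≤ 2 * m) : sg n m k i j ≠ (pp n).1 := by
  intro h
  have hpp : (pp n).1 = of n ((n + n / 2 : ℕ) : ℤ) ((n + n / 2 : ℕ) : ℤ) := by
    simp only [pp, dg, of, Int.cast_natCast]
  rw [hpp] at h
  unfold sg at h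
  have hj1 : (j : ℤ) ≤ 2 * m := by exact_mod_cast hj
  have hn1 : (64 : ℤ) * m ≤ n := by exact_mod_cast hn
  have hm1 : (2 : ℤ) ≤ m := by exact_mod_cast hm
  obtain ⟨u1, u2⟩ := cl_dz i
  have a1 := abs_le.1 (cl_mul u1 hj1)
  have a2 := abs_le.1 (cl_mul u2 hj1)
  obtain ⟨b1, b2, b3, b4⟩ := lam_coord n m (by omega) hk
  have d1 : (3 : ℤ) * n - 1 ≤ 2 * ((n + n / 2 : ℕ) : ℤ) := by
    omega
  have d2 : 2 * ((n + n / 2 : ℕ) : ℤ) ≤ (3 : ℤ) * n := by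
    omega
  obtain ⟨e1, e2⟩ := of_inj n (by rw [abs_lt]; constructor <;> linarith)
    (by rw [abs_lt]; constructor <;> linarith) h
  linarith

end HKC
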