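import Mathlib
import Pool.Agent.Lib_helper14.HKC.DefsC
import Pool.Agent.Lib_helper14.HKC.W.ca
import Pool.Agent.Lib_helper14.HKC.W.cl

set_option autoImplicit false

namespace HKC

open MeasureTheory QG HK

/-- the list of the first `s` interior sites of an edge, in front of `l` -/
def cm_L (n m : ℕ) (k : ℤ × ℤ) (i : Fin 4) (l : List (Tor n)) : ℕ → List (Tor n)
  | 0 => l
  | s + 1 => sg n m k i (s + 1) :: cm_L n m k i l s

theorem cm_op (i : Fin 4) : dz (op i) = (-(dz i).1, -(dz i).2) := by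
  fin_cases i <;> simp [dz, op]

theorem cm_dz (i : Fin 4) : |(dz i).1| + |(dz i).2| = 1 := by
  fin_cases i <;> simp [dz]

theorem cm_zero (n : ℕ) : of n 0 0 = 0 := by
  unfold of
  simp

theorem cm_sg_add (n m : ℕ) (k : ℤ × ℤ) (i : Fin 4) (j : ℕ) (a b : ℤ) :
    sg n m k i j + of n a b =
      of n (2 * m * k.1 + j * (dz i).1 + a) (2 * m * k.2 + j * (dz i).2 + b) := by
  unfold sg
  rw [of_add]

/-- the only neighbour in the block -/
theorem cm_step (n m : ℕ) (hm : 2 ≤ m) (hn : 64 * m ≤ n) (k : ℤ × ℤ) (i : Fin 4) {s j : ℕ}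
    (hs : s + 1 ≤ 2 * m) (hj : j ≤ s) {a b : ℤ} (ha : |a| ≤ 1) (hb : |b| ≤ 1)
    (h : sg n m k i (s + 1) + of n a b = sg n m k i j) : of n a b = dir n (op i) := by
  rw [cm_sg_add] at h
  unfold sg at h
  have hdz := cm_dz i
  have h1 : |(dz i).1| ≤ 1 := by have := abs_nonneg (dz i).2; linarith
  have h2 : |(dz i).2| ≤ 1 := by have := abs_nonneg (dz i).1; linarith
  have hnm : (64 : ℤ) * m ≤ n := by exact_mod_cast hn
  have hm' : (2 : ℤ) ≤ m := by exact_mod_cast hm
  have hsj : (0 : ℤ) ≤ (s : ℤ) + 1 - j := by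
    have : (j : ℤ) ≤ s := by exact_mod_cast hj
    linarith
  have hs' : (s : ℤ) + 1 ≤ 2 * m := by exact_mod_cast hs
  have hj0 : (0 : ℤ) ≤ j := Int.natCast_nonneg j
  have key : ∀ d c : ℤ, |d| ≤ 1 → |c| ≤ 1 → |((s : ℤ) + 1 - j) * d + c| < 2 * n := by
    intro d c hd hc
    have e1 : |((s : ℤ) + 1 - j) * d + c| ≤ |((s : ℤ) + 1 - j) * d| + |c| := abs_add_le _ _
    have e2 : |((s : ℤ) + 1 - j) * d| ≤ (s : ℤ) + 1 - j := by
      rw [abs_mul, abs_of_nonneg hsj]
      calc ((s : ℤ) + 1 - j) * |d| ≤ ((s : ℤ) + 1 - j) * 1 :=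
            mul_le_mul_of_nonneg_left hd hsj
        _ = _ := mul_one _
    linarith
  push_cast at h
  obtain ⟨e1, e2⟩ := of_inj n (by
    have := key (dz i).1 a h1 ha
    have e : 2 * (m : ℤ) * k.1 + ((s : ℤ) + 1) * (dz i).1 + a - (2 * m * k.1 + j * (dz i).1) =
      ((s : ℤ) + 1 - j) * (dz i).1 + a := by ring
    rw [e]
    exact this) (by
    have := key (dz i).2 b h2 hb
    have e : 2 * (m : ℤ) * k.2 + ((s : ℤ) + 1) * (dz i).2 + b - (2 * m * k.2 + j * (dz i).2) =
      ((s : ℤ) + 1 - j) * (dz i).2 + b := by ring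
    rw [e]
    exact this) h
  have f1 : a = -(((s : ℤ) + 1 - j) * (dz i).1) := by linarith
  have f2 : b = -(((s : ℤ) + 1 - j) * (dz i).2) := by linarith
  -- the distance is one
  have hjs : (s : ℤ) + 1 - j = 1 := by
    have e3 : |a| + |b| = (s : ℤ) + 1 - j := by
      rw [f1, f2, abs_neg, abs_neg, abs_mul, abs_mul, abs_of_nonneg hsj, ← mul_add, hdz, mul_one]
    by_contra hne
    have hge : (1 : ℤ) ≤ (s : ℤ) + 1 - j := by
      have : (j : ℤ) ≤ s := by exact_mod_cast hj
      linarith
    have h2' : (2 : ℤ) ≤ (s : ℤ) + 1 - j := by omega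
    have hcase : |(dz i).1| = 0 ∨ |(dz i).2| = 0 := by
      have g1 := abs_nonneg (dz i).1
      have g2 := abs_nonneg (dz i).2
      omega
    rcases hcase with h0 | h0
    · have : a = 0 := by rw [f1, abs_eq_zero.mp h0]; ring
      rw [this, abs_zero] at e3
      linarith
    · have : b = 0 := by rw [f2, abs_eq_zero.mp h0]; ring
      rw [this, abs_zero] at e3
      linarith
  rw [dir_of, cm_op, f1, f2, hjs]
  simp

/-- the interior sites of a family of far edges can be removed one after the other -/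
theorem XT_list (n m : ℕ) [NeZero n] (hm : 2 ≤ m) (hn : 64 * m ≤ n) (T : Finset (ℤ × ℤ))
    (e : ℤ × ℤ → (ℤ × ℤ) × Fin 4) (he : FarE n m T e) :
    ∃ l : List (Tor n), l.toFinset = XT n m T e ∧ RmL n l ∧ l.length = (2 * m - 1) * T.card ∧
      (pp n).1 ∉ l := by
  induction T using Finset.induction_on with
  | empty =>
    refine ⟨[], ?_, trivial, by simp, by simp⟩
    simp [XT]
  | insert c T' hc ih =>
    have he' : FarE n m T' e := by
      intro d hd
      obtain ⟨h1, h2, h3⟩ := he d (Finset.mem_insert_of_mem hd)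
      exact ⟨h1, h2, fun d' hd' => h3 d' (Finset.mem_insert_of_mem hd')⟩
    obtain ⟨l', hl1, hl2, hl3, hl4⟩ := ih he'
    obtain ⟨hk1, hk2, hk3⟩ := he c (Finset.mem_insert_self _ _)
    have hfar : ∀ y ∈ XT n m T' e, ∀ s : ℕ, s ≤ 2 * m → ∀ a b : ℤ, |a| ≤ 1 → |b| ≤ 1 →
        sg n m (e c).1 (e c).2 s + of n a b ≠ y := by
      intro y hy s hs a b ha hb
      unfold XT at hy
      rw [Finset.mem_biUnion] at hy
      obtain ⟨d, hd, hyd⟩ := hy
      unfold Xe at hyd
      rw [Finset.mem_image] at hyd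
      obtain ⟨j', hj', rfl⟩ := hyd
      rw [Finset.mem_Ioo] at hj'
      have hne : c ≠ d := by
        rintro rfl
        exact hc hd
      exact sg_far n m hm hn hk1 (he' d hd).1 (hk3 d (Finset.mem_insert_of_mem hd) hne) hs
        hj'.2.le ha hb
    have main : ∀ s : ℕ, s ≤ 2 * m - 1 →
        (cm_L n m (e c).1 (e c).2 l' s).toFinset =
          (Finset.Ioo 0 (s + 1)).image (sg n m (e c).1 (e c).2) ∪ XT n m T' e ∧
        RmL n (cm_L n m (e c).1 (e c).2 l' s) ∧
        (cm_L n m (e c).1 (e c).2 l' s).length = s + l'.length ∧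
        (pp n).1 ∉ cm_L n m (e c).1 (e c).2 l' s := by
      intro s
      induction s with
      | zero =>
        intro _
        refine ⟨?_, hl2, by simp [cm_L], hl4⟩
        simp only [cm_L]
        rw [hl1]
        have : Finset.Ioo 0 (0 + 1) = (∅ : Finset ℕ) := by decide
        rw [this, Finset.image_empty, Finset.empty_union]
      | succ s ihs =>
        intro hs
        obtain ⟨i1, i2, i3, i4⟩ := ihs (by omega)
        have hs2 : s + 1 ≤ 2 * m := by omega
        refine ⟨?_, ⟨⟨?_, op (e c).2, ?_⟩, i2⟩, ?_, ?_⟩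
        · simp only [cm_L]
          rw [List.toFinset_cons, i1]
          have : Finset.Ioo 0 (s + 1 + 1) = insert (s + 1) (Finset.Ioo 0 (s + 1)) := by
            ext t
            rw [Finset.mem_insert, Finset.mem_Ioo, Finset.mem_Ioo]
            omega
          rw [this, Finset.image_insert, Finset.insert_union]
        · rw [i1, Finset.mem_union]
          rintro (h | h)
          · rw [Finset.mem_image] at h
            obtain ⟨j, hj, hj2⟩ := h
            rw [Finset.mem_Ioo] at hj
            have := sg_inj n m hm hn (e c).1 (e c).2 (Set.mem_Iic.mpr (by omega))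
              (Set.mem_Iic.mpr hs2) hj2
            omega
          · refine hfar _ h (s + 1) hs2 0 0 (by norm_num) (by norm_num) ?_
            rw [cm_zero, add_zero]
        · intro a b ha hb h
          rw [i1, Finset.mem_union] at h
          rcases h with h | h
          · rw [Finset.mem_image] at h
            obtain ⟨j, hj, hj2⟩ := h
            rw [Finset.mem_Ioo] at hj
            exact cm_step n m hm hn _ _ hs2 (by omega) ha hb hj2.symm
          · exact absurd rfl (hfar _ h (s + 1) hs2 a b ha hb)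
        · simp only [cm_L, List.length_cons]
          rw [i3]
          omega
        · simp only [cm_L, List.mem_cons, not_or]
          exact ⟨fun h => sg_pp n m hm hn hk1 hs2 h.symm, i4⟩
    obtain ⟨m1, m2, m3, m4⟩ := main (2 * m - 1) le_rfl
    refine ⟨cm_L n m (e c).1 (e c).2 l' (2 * m - 1), ?_, m2, ?_, m4⟩
    · rw [m1]
      have h2m : 2 * m - 1 + 1 = 2 * m := by omega
      rw [h2m]
      unfold XT
      rw [Finset.biUnion_insert]
      rfl
    · rw [m3, hl3, Finset.card_insert_of_notMem hc, Nat.mul_add, Nat.mul_one]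
      omega

end HKC
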