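import Mathlib
import Pool.Agent.Lib_helper14.HKC.DefsC
import Pool.Agent.Lib_helper12.HK.W.ab
import Pool.Agent.Lib_helper69.HKL.W.ma
import Pool.Agent.Lib_helper14.HKC.W.ca

set_option autoImplicit false

namespace HKC

open MeasureTheory QG HK

/-- partial integrals of a function of some of the coordinates -/
theorem lmg_map {A A' : Type} [Fintype A] [DecidableEq A] [Fintype A'] [DecidableEq A'] (ι : A' ↪ A)
    {G : (A' → ℝ) → ENNReal} (hG : Measurable G) (S : Finset A') (x : A → ℝ) :
    lmg (fun φ => G (fun y => φ (ι y))) (S.map ι) x = lmg G S (fun y => x (ι y)) := by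
  have hF : Measurable (fun φ : A → ℝ => G (fun y => φ (ι y))) :=
    hG.comp (measurable_pi_lambda _ fun i => measurable_pi_apply _)
  induction S using Finset.induction_on generalizing x with
  | empty => rw [Finset.map_empty, lmg_empty, lmg_empty]
  | insert k S hk ih =>
    rw [lmg_erase hF (k := ι k) (by
      rw [Finset.mem_map' ι]
      exact Finset.mem_insert_self _ _), lmg_erase hG (k := k) (Finset.mem_insert_self _ _)]
    rw [Finset.map_insert, Finset.erase_insert (by rw [Finset.mem_map' ι]; exact hk),
      Finset.erase_insert hk]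
    refine lintegral_congr fun r => ?_
    rw [ih]
    congr 1
    funext y
    by_cases h : y = k
    · subst h
      rw [Function.update_self, Function.update_self]
    · rw [Function.update_of_ne h, Function.update_of_ne (fun hc => h (ι.injective hc))]

theorem co_meas {A C : Type} [Fintype A] [DecidableEq A] [DecidableEq C] (T : Finset C)
    (v : C → A) (c : C → Fin 4 → A) :
    MeasurableSet {φ : A → ℝ | ∀ t ∈ T, ∀ i, |φ (v t) - φ (c t i)| ≤ 1} := by
  rw [show {φ : A → ℝ | ∀ t ∈ T, ∀ i, |φ (v t) - φ (c t i)| ≤ 1} =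
    ⋂ t ∈ T, ⋂ i : Fin 4, {φ : A → ℝ | |φ (v t) - φ (c t i)| ≤ 1} from by
      ext φ
      simp only [Set.mem_iInter]
      exact Iff.rfl]
  refine Finset.measurableSet_biInter _ fun t _ => ?_
  refine MeasurableSet.iInter fun i => ?_
  have h1 : Measurable fun φ : A → ℝ => φ (v t) := measurable_pi_apply _
  have h2 : Measurable fun φ : A → ℝ => φ (c t i) := measurable_pi_apply _
  exact measurableSet_le (h1.sub h2).abs measurable_const

/-- integration of independent coordinates -/
theorem lmg_cells {A C : Type} [Fintype A] [DecidableEq A] [DecidableEq C] (T : Finset C)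
    (v : C → A) (hv : Set.InjOn v T) (c : C → Fin 4 → A) (hc : ∀ t ∈ T, ∀ i, ∀ t' ∈ T, c t i ≠ v t')
    (x : A → ℝ) :
    lmg ({φ : A → ℝ | ∀ t ∈ T, ∀ i, |φ (v t) - φ (c t i)| ≤ 1}.indicator 1) (T.image v) x =
      ∏ t ∈ T, ENNReal.ofReal (wh fun i => x (c t i)) := by
  induction T using Finset.induction_on with
  | empty =>
    rw [Finset.image_empty, lmg_empty, Finset.prod_empty, Set.indicator_of_mem]
    · rfl
    · intro t ht
      exact absurd ht (Finset.notMem_empty t)
  | insert t T ht ih =>
    have hvt : v t ∉ T.image v := by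
      intro h
      rw [Finset.mem_image] at h
      obtain ⟨t', ht', h⟩ := h
      have := hv (Finset.mem_coe.mpr (Finset.mem_insert_of_mem ht'))
        (Finset.mem_coe.mpr (Finset.mem_insert_self t T)) h
      exact ht (this ▸ ht')
    have hm := co_meas (A := A) T v c
    have hm1 : MeasurableSet {φ : A → ℝ | ∀ i, |φ (v t) - φ (c t i)| ≤ 1} := by
      have h := co_meas (A := A) {t} v c
      have h2 : {φ : A → ℝ | ∀ t' ∈ ({t} : Finset C), ∀ i, |φ (v t') - φ (c t' i)| ≤ 1} =
          {φ : A → ℝ | ∀ i, |φ (v t) - φ (c t i)| ≤ 1} := by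
        ext φ
        simp
      rw [h2] at h
      exact h
    have hsplit : ({φ : A → ℝ | ∀ t' ∈ insert t T, ∀ i, |φ (v t') - φ (c t' i)| ≤ 1}.indicator
        (1 : (A → ℝ) → ENNReal)) = fun φ =>
          {φ : A → ℝ | ∀ t' ∈ T, ∀ i, |φ (v t') - φ (c t' i)| ≤ 1}.indicator 1 φ *
            {φ : A → ℝ | ∀ i, |φ (v t) - φ (c t i)| ≤ 1}.indicator 1 φ := by
      have h1 : {φ : A → ℝ | ∀ t' ∈ insert t T, ∀ i, |φ (v t') - φ (c t' i)| ≤ 1} =
          {φ : A → ℝ | ∀ t' ∈ T, ∀ i, |φ (v t') - φ (c t' i)| ≤ 1} ∩
            {φ : A → ℝ | ∀ i, |φ (v t) - φ (c t i)| ≤ 1} := by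
        ext φ
        constructor
        · intro h
          exact ⟨fun t' ht' => h t' (Finset.mem_insert_of_mem ht'),
            h t (Finset.mem_insert_self _ _)⟩
        · rintro ⟨h1, h2⟩ t' ht'
          rcases Finset.mem_insert.mp ht' with rfl | h3
          · exact h2
          · exact h1 t' h3
      rw [h1, Set.inter_indicator_one]
      rfl
    have hfull : Measurable ({φ : A → ℝ | ∀ t' ∈ insert t T, ∀ i,
        |φ (v t') - φ (c t' i)| ≤ 1}.indicator (1 : (A → ℝ) → ENNReal)) :=
      measurable_one.indicator (co_meas _ _ _)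
    have himg : (insert t T).image v = {v t} ∪ T.image v := by
      rw [Finset.image_insert]
      rfl
    rw [himg, lmg_union hfull (Finset.disjoint_singleton_left.mpr hvt)]
    have hone : ∀ φ : A → ℝ, lmg ({φ : A → ℝ | ∀ i, |φ (v t) - φ (c t i)| ≤ 1}.indicator 1) {v t} φ =
        ENNReal.ofReal (wh fun i => φ (c t i)) := by
      intro φ
      rw [lmg_erase (measurable_one.indicator hm1) (k := v t) (Finset.mem_singleton_self _),
        Finset.erase_singleton, lmg_empty]
      rw [← wh_length (fun i => φ (c t i))]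
      have hs : MeasurableSet {r : ℝ | ∀ i, |r - φ (c t i)| ≤ 1} := by
        rw [show {r : ℝ | ∀ i, |r - φ (c t i)| ≤ 1} = ⋂ i : Fin 4, {r : ℝ | |r - φ (c t i)| ≤ 1}
          from by
            ext r
            simp only [Set.mem_iInter]
            exact Iff.rfl]
        refine MeasurableSet.iInter fun i => measurableSet_le ?_ measurable_const
        exact (measurable_id.sub measurable_const).abs
      rw [← lintegral_indicator_one hs]
      refine lintegral_congr fun r => ?_
      have hiff : Function.update φ (v t) r ∈ {φ : A → ℝ | ∀ i, |φ (v t) - φ (c t i)| ≤ 1} ↔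
          r ∈ {r : ℝ | ∀ i, |r - φ (c t i)| ≤ 1} := by
        have h3 : ∀ i, Function.update φ (v t) r (c t i) = φ (c t i) := fun i =>
          Function.update_of_ne (hc t (Finset.mem_insert_self _ _) i t
            (Finset.mem_insert_self _ _)) _ _
        constructor
        · intro h i
          have h4 := h i
          rw [h3, Function.update_self] at h4
          exact h4
        · intro h i
          rw [h3, Function.update_self]
          exact h i
      by_cases h5 : r ∈ {r : ℝ | ∀ i, |r - φ (c t i)| ≤ 1}
      · rw [Set.indicator_of_mem (hiff.mpr h5), Set.indicator_of_mem h5]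
        rfl
      · rw [Set.indicator_of_notMem (fun h => h5 (hiff.mp h)), Set.indicator_of_notMem h5]
    have h1 : lmg ({φ : A → ℝ | ∀ t' ∈ insert t T, ∀ i,
        |φ (v t') - φ (c t' i)| ≤ 1}.indicator 1) {v t} = fun φ =>
        ENNReal.ofReal (wh fun i => φ (c t i)) *
          {φ : A → ℝ | ∀ t' ∈ T, ∀ i, |φ (v t') - φ (c t' i)| ≤ 1}.indicator 1 φ := by
      funext φ
      rw [hsplit, lmg_mul (measurable_one.indicator hm1), hone, mul_comm]
      intro x y hxy
      have h3 : ∀ t' ∈ T, x (v t') = y (v t') ∧ ∀ i, x (c t' i) = y (c t' i) := by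
        intro t' ht'
        constructor
        · refine hxy _ ?_
          rw [Finset.mem_singleton]
          intro h
          exact hvt (h ▸ Finset.mem_image_of_mem v ht')
        · intro i
          refine hxy _ ?_
          rw [Finset.mem_singleton]
          exact hc t' (Finset.mem_insert_of_mem ht') i t (Finset.mem_insert_self _ _)
      have h4 : x ∈ {φ : A → ℝ | ∀ t' ∈ T, ∀ i, |φ (v t') - φ (c t' i)| ≤ 1} ↔
          y ∈ {φ : A → ℝ | ∀ t' ∈ T, ∀ i, |φ (v t') - φ (c t' i)| ≤ 1} := by
        constructor
        · intro h t' ht' i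
          rw [← (h3 t' ht').1, ← (h3 t' ht').2 i]
          exact h t' ht' i
        · intro h t' ht' i
          rw [(h3 t' ht').1, (h3 t' ht').2 i]
          exact h t' ht' i
      by_cases h5 : x ∈ {φ : A → ℝ | ∀ t' ∈ T, ∀ i, |φ (v t') - φ (c t' i)| ≤ 1}
      · rw [Set.indicator_of_mem h5, Set.indicator_of_mem (h4.mp h5)]
        rfl
      · rw [Set.indicator_of_notMem h5, Set.indicator_of_notMem (fun h => h5 (h4.mpr h))]
    rw [h1, lmg_mul (measurable_one.indicator hm), Finset.prod_insert ht, ih]
    · exact fun a ha b hb h => hv (Finset.mem_coe.mpr (Finset.mem_insert_of_mem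
        (Finset.mem_coe.mp ha))) (Finset.mem_coe.mpr (Finset.mem_insert_of_mem
          (Finset.mem_coe.mp hb))) h
    · exact fun t' ht' i t'' ht'' => hc t' (Finset.mem_insert_of_mem ht') i t''
        (Finset.mem_insert_of_mem ht'')
    · intro x y hxy
      have h3 : (fun i => x (c t i)) = fun i => y (c t i) := by
        funext i
        refine hxy _ ?_
        intro h
        rw [Finset.mem_image] at h
        obtain ⟨t', ht', h⟩ := h
        exact hc t (Finset.mem_insert_self _ _) i t' (Finset.mem_insert_of_mem ht') h.symm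
      change ENNReal.ofReal (wh fun i => x (c t i)) = ENNReal.ofReal (wh fun i => y (c t i))
      rw [h3]

end HKC
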