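import Mathlib
import Pool.Agent.Lib_helper14.HKC.DefsC
import Pool.Agent.Lib_helper12.HK.W.ab
import Pool.Agent.Lib_helper69.HKL.W.ma
import Pool.Agent.Lib_helper69.HKL.W.mb
import Pool.Agent.Lib_helper14.HKC.W.ca
import Pool.Agent.Lib_helper14.HKC.W.co

set_option autoImplicit false

namespace HKC

open MeasureTheory QG HK

theorem cp_z2 (c : ZMod 2) : c = 0 ∨ c = 1 := by
  fin_cases c
  · exact Or.inl rfl
  · exact Or.inr rfl

theorem cp_par (n : ℕ) {v : Tor n} (h : par n v = 0) (i : Fin 4) : par n (v + dir n i) = 1 := by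
  rw [par_add, par_dir, h, zero_add]

theorem cp_op (n : ℕ) (i : Fin 4) (v : Tor n) : v + dir n i + dir n (op i) = v := by
  rw [add_assoc]
  have : dir n i + dir n (op i) = 0 := by
    fin_cases i <;> simp [dir, op]
  rw [this, add_zero]

theorem cp_lip (n : ℕ) [NeZero n] (X : Finset (Od n)) (φ : Tor n → ℝ) :
    φ ∈ Lip n (X.image Subtype.val) ↔
      ∀ v ∈ Finset.univ \ X, ∀ i : Fin 4, |φ v.1 - φ (cn n v i).1| ≤ 1 := by
  have hodd : ∀ v : Tor n, ∀ h : par n v = 1, v ∈ X.image Subtype.val ↔ (⟨v, h⟩ : Od n) ∈ X := by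
    intro v h
    rw [Finset.mem_image]
    constructor
    · rintro ⟨w, hw, rfl⟩
      exact hw
    · intro hw
      exact ⟨_, hw, rfl⟩
  have hev : ∀ v : Tor n, par n v = 0 → v ∉ X.image Subtype.val := by
    intro v h hv
    rw [Finset.mem_image] at hv
    obtain ⟨w, _, rfl⟩ := hv
    rw [w.2] at h
    exact absurd h (by decide)
  constructor
  · intro h v hv i
    have hvX : v ∉ X := (Finset.mem_sdiff.mp hv).2
    have h1 : v.1 ∉ X.image Subtype.val := by
      rw [hodd v.1 v.2]
      exact hvX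
    have h2 : v.1 + dir n i ∉ X.image Subtype.val := hev _ (cn n v i).2
    have := h v.1 h1 i h2
    rw [abs_sub_comm]
    exact this
  · intro h y hy i hyi
    rcases cp_z2 (par n y) with h0 | h1
    · have h3 : par n (y + dir n i) = 1 := cp_par n h0 i
      rw [hodd _ h3] at hyi
      have h4 := h ⟨y + dir n i, h3⟩ (Finset.mem_sdiff.mpr ⟨Finset.mem_univ _, hyi⟩) (op i)
      have h5 : (cn n ⟨y + dir n i, h3⟩ (op i)).1 = y := cp_op n i y
      rw [h5] at h4
      exact h4
    · rw [hodd _ h1] at hy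
      have h4 := h ⟨y, h1⟩ (Finset.mem_sdiff.mpr ⟨Finset.mem_univ _, hy⟩) i
      rw [abs_sub_comm] at h4
      exact h4

theorem cp_set (n : ℕ) [NeZero n] (p : Ev n) (X : Finset (Od n)) :
    (Finset.univ.erase p.1) \ X.image Subtype.val =
      (Finset.univ \ X).image Subtype.val ∪
        (Finset.univ.erase p).map (Function.Embedding.subtype _) := by
  ext y
  simp only [Finset.mem_sdiff, Finset.mem_erase, Finset.mem_univ, and_true, Finset.mem_image,
    Finset.mem_union, Finset.mem_map, true_and, Function.Embedding.subtype_apply]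
  constructor
  · rintro ⟨h1, h2⟩
    rcases cp_z2 (par n y) with h0 | h0
    · right
      refine ⟨⟨y, h0⟩, ?_, rfl⟩
      intro hc
      exact h1 (congrArg Subtype.val hc)
    · left
      refine ⟨⟨y, h0⟩, ?_, rfl⟩
      intro hc
      exact h2 ⟨_, hc, rfl⟩
  · rintro (⟨v, hv, rfl⟩ | ⟨v, hv, rfl⟩)
    · constructor
      · intro hc
        have h1 := v.2
        rw [hc, p.2] at h1
        exact absurd h1 (by decide)
      · rintro ⟨w, hw, hwv⟩
        exact hv (by rwa [← Subtype.ext hwv])
    · constructor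
      · intro hc
        exact hv (Subtype.ext hc)
      · rintro ⟨w, hw, hwv⟩
        have h1 := w.2
        rw [hwv, v.2] at h1
        exact absurd h1 (by decide)

theorem cp_disj (n : ℕ) [NeZero n] (p : Ev n) (X : Finset (Od n)) :
    Disjoint ((Finset.univ \ X).image Subtype.val)
        ((Finset.univ.erase p).map (Function.Embedding.subtype fun y => par n y = 0)) := by
  rw [Finset.disjoint_left]
  intro y hy hy'
  rw [Finset.mem_image] at hy
  rw [Finset.mem_map] at hy'
  obtain ⟨v, _, rfl⟩ := hy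
  obtain ⟨w, _, hw⟩ := hy'
  have h1 := v.2
  rw [← hw] at h1
  have h2 : par n w.1 = 1 := h1
  rw [w.2] at h2
  exact absurd h2 (by decide)

theorem cp_meas (n : ℕ) [NeZero n] (T : Finset (Od n)) :
    Measurable fun a : Ev n → ℝ => ∏ v ∈ T, ENNReal.ofReal (wh (loc (cn n) a v)) := by
  refine Finset.measurable_prod _ fun v _ => ?_
  refine ENNReal.measurable_ofReal.comp (wh_cont.measurable.comp ?_)
  exact measurable_pi_lambda _ fun i => measurable_pi_apply _

/-- the odd sites outside `X` integrated (`X` a set of removed odd sites) -/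
theorem vol_even (n : ℕ) [NeZero n] (p : Ev n) (X : Finset (Od n)) {E : Set (Ev n → ℝ)}
    (hE : MeasurableSet E) :
    vol n p.1 (X.image Subtype.val) {φ | (fun y : Ev n => φ y.1) ∈ E} =
      ∫⁻ a in E, ∏ v ∈ Finset.univ \ X, ENNReal.ofReal (wh (loc (cn n) a v)) ∂bs p := by
  have hEm : MeasurableSet {φ : Tor n → ℝ | (fun y : Ev n => φ y.1) ∈ E} := by
    refine measurableSet_preimage ?_ hE
    exact measurable_pi_lambda _ fun i => measurable_pi_apply _
  set Q : Set (Tor n → ℝ) := {φ | ∀ v ∈ Finset.univ \ X, ∀ i : Fin 4,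
    |φ v.1 - φ (cn n v i).1| ≤ 1} with hQ
  have hlip : Lip n (X.image Subtype.val) = Q := by
    ext φ
    exact cp_lip n X φ
  have hQm : MeasurableSet Q := by
    rw [← hlip]
    exact lip_meas n _
  unfold vol
  rw [hlip, cp_set, lmg_union (measurable_one.indicator (hQm.inter hEm)) (cp_disj n p X)]
  have h1 : ∀ φ : Tor n → ℝ, lmg ((Q ∩ {φ | (fun y : Ev n => φ y.1) ∈ E}).indicator 1)
      ((Finset.univ \ X).image Subtype.val) φ =
      (fun a : Ev n → ℝ => E.indicator 1 a *
        ∏ v ∈ Finset.univ \ X, ENNReal.ofReal (wh (loc (cn n) a v))) (fun y => φ y.1) := by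
    intro φ
    have h2 : ((Q ∩ {φ : Tor n → ℝ | (fun y : Ev n => φ y.1) ∈ E}).indicator
        (1 : (Tor n → ℝ) → ENNReal)) =
        fun φ => {φ : Tor n → ℝ | (fun y : Ev n => φ y.1) ∈ E}.indicator 1 φ *
          Q.indicator 1 φ := by
      funext ψ
      rw [Set.inter_comm, Set.inter_indicator_one]
      rfl
    rw [h2, lmg_mul (measurable_one.indicator hQm)]
    · have h3 := lmg_cells (A := Tor n) (Finset.univ \ X) (fun v : Od n => v.1)
        (Subtype.val_injective.injOn) (fun v i => (cn n v i).1) (by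
          intro t _ i t' _ hc
          have h4 := (cn n t i).2
          rw [hc, t'.2] at h4
          exact absurd h4 (by decide)) φ
      rw [h3]
      rfl
    · intro x y hxy
      have h4 : (fun z : Ev n => x z.1) = (fun z : Ev n => y z.1) := by
        funext z
        refine hxy z.1 ?_
        intro hc
        rw [Finset.mem_image] at hc
        obtain ⟨w, _, hw⟩ := hc
        have h5 := w.2
        rw [hw, z.2] at h5
        exact absurd h5 (by decide)
      by_cases h5 : (fun z : Ev n => x z.1) ∈ E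
      · rw [Set.indicator_of_mem (show x ∈ {φ : Tor n → ℝ | (fun y : Ev n => φ y.1) ∈ E} from h5),
          Set.indicator_of_mem (show y ∈ {φ : Tor n → ℝ | (fun y : Ev n => φ y.1) ∈ E} from by
            rw [h4] at h5; exact h5)]
        rfl
      · rw [Set.indicator_of_notMem
          (show x ∉ {φ : Tor n → ℝ | (fun y : Ev n => φ y.1) ∈ E} from h5),
          Set.indicator_of_notMem (show y ∉ {φ : Tor n → ℝ | (fun y : Ev n => φ y.1) ∈ E} from by
            rw [h4] at h5; exact h5)]
  have hG : Measurable (fun a : Ev n → ℝ => E.indicator 1 a *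
        ∏ v ∈ Finset.univ \ X, ENNReal.ofReal (wh (loc (cn n) a v))) :=
    (measurable_one.indicator hE).mul (cp_meas n _)
  rw [show lmg ((Q ∩ {φ : Tor n → ℝ | (fun y : Ev n => φ y.1) ∈ E}).indicator 1)
      ((Finset.univ \ X).image Subtype.val) = fun φ => (fun a : Ev n → ℝ => E.indicator 1 a *
        ∏ v ∈ Finset.univ \ X, ENNReal.ofReal (wh (loc (cn n) a v)))
          (fun y => φ ((Function.Embedding.subtype fun y => par n y = 0) y)) from funext h1]
  rw [lmg_map (Function.Embedding.subtype fun y => par n y = 0) hG]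
  have h6 : (fun y : Ev n => (0 : Tor n → ℝ) ((Function.Embedding.subtype fun y => par n y = 0) y)) =
      (0 : Ev n → ℝ) := rfl
  rw [h6, ← lmg_bs hG p, ← lintegral_indicator hE]
  refine lintegral_congr fun a => ?_
  by_cases ha : a ∈ E
  · rw [Set.indicator_of_mem ha, Set.indicator_of_mem ha, Pi.one_apply, one_mul]
  · rw [Set.indicator_of_notMem ha, Set.indicator_of_notMem ha, zero_mul]

/-- the hammock field and the volumes -/
theorem muh_vol (n : ℕ) [NeZero n] {E : Set (Ev n → ℝ)} (hE : MeasurableSet E) :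
    muh n 0 E * vol n (pp n).1 ∅ Set.univ =
      vol n (pp n).1 ∅ {φ | (fun y : Ev n => φ y.1) ∈ E} := by
  have hw : ∀ a : Ev n → ℝ, wt wh (cn n) 0 a = ∏ v, wh (loc (cn n) a v) := by
    intro a
    unfold wt
    have h1 : dot (0 : Ev n → ℝ) a = 0 := by
      unfold dot
      simp
    rw [h1, Real.exp_zero, mul_one]
  have hw' : ∀ a : Ev n → ℝ, ENNReal.ofReal (wt wh (cn n) 0 a) =
      ∏ v, ENNReal.ofReal (wh (loc (cn n) a v)) := by
    intro a
    rw [hw, ENNReal.ofReal_prod_of_nonneg fun v _ => (wh_basic _).1]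
  obtain ⟨hi, hZ⟩ := wt_int_h n (pp n)
  have hV : ∀ E : Set (Ev n → ℝ), MeasurableSet E →
      vol n (pp n).1 ∅ {φ | (fun y : Ev n => φ y.1) ∈ E} =
        ∫⁻ a in E, ENNReal.ofReal (wt wh (cn n) 0 a) ∂bs (pp n) := by
    intro E hE
    have h := vol_even n (pp n) ∅ hE
    rw [Finset.image_empty] at h
    rw [h, Finset.sdiff_empty]
    exact lintegral_congr fun a => (hw' a).symm
  have hu : vol n (pp n).1 ∅ Set.univ = ENNReal.ofReal (Zt wh (cn n) (pp n) 0) := by
    have h := hV Set.univ MeasurableSet.univ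
    rw [show ({φ : Tor n → ℝ | (fun y : Ev n => φ y.1) ∈ (Set.univ : Set (Ev n → ℝ))}) =
      Set.univ from rfl] at h
    rw [h, Measure.restrict_univ]
    unfold Zt
    rw [ofReal_integral_eq_lintegral_ofReal hi]
    refine Filter.Eventually.of_forall fun a => ?_
    change (0 : ℝ) ≤ wt wh (cn n) 0 a
    rw [hw]
    exact Finset.prod_nonneg fun v _ => (wh_basic _).1
  rw [hV E hE, hu]
  unfold muh mu
  rw [withDensity_apply _ hE]
  rw [← lintegral_mul_const' _ _ ENNReal.ofReal_ne_top]
  refine lintegral_congr fun a => ?_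
  rw [← ENNReal.ofReal_mul' hZ.le, div_mul_cancel₀ _ hZ.ne']

end HKC
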