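import Mathlib
import Pool.Agent.Lib_helper14.HKC.DefsC
import Pool.Agent.Lib_helper12.HK.W.ab
import Pool.Agent.Lib_helper14.HKC.W.ca

set_option autoImplicit false

namespace HKC

open MeasureTheory QG HK

theorem cj_meas {A : Type} [Fintype A] (d : ℕ) (γ : ℕ → A) :
    MeasurableSet {φ : A → ℝ | ∀ j ≤ d, φ (γ (j + 1)) - φ (γ j) ≤ 1} := by
  simp only [Set.ofPred_forall]
  exact MeasurableSet.iInter fun j => MeasurableSet.iInter fun _ =>
    measurableSet_le ((measurable_pi_apply (γ (j + 1))).sub (measurable_pi_apply (γ j)))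
      measurable_const

/-- the one-dimensional integral -/
theorem cj_int (c e : ℝ) (h : c ≤ e) (d : ℕ) :
    ∫⁻ r in Set.Icc c e, ENNReal.ofReal ((r - c) ^ d / d.factorial) =
      ENNReal.ofReal ((e - c) ^ (d + 1) / (d + 1).factorial) := by
  have hc : Continuous fun r : ℝ => (r - c) ^ d / (d.factorial : ℝ) := by fun_prop
  rw [← ofReal_integral_eq_lintegral_ofReal]
  · congr 1
    rw [integral_Icc_eq_integral_Ioc, ← intervalIntegral.integral_of_le h,
      intervalIntegral.integral_div,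
      intervalIntegral.integral_comp_sub_right (fun r : ℝ => r ^ d) c, integral_pow, sub_self]
    rw [zero_pow (Nat.succ_ne_zero d), sub_zero, Nat.factorial_succ]
    push_cast
    field_simp
  · exact hc.continuousOn.integrableOn_Icc
  · refine (ae_restrict_iff' measurableSet_Icc).2 (Filter.Eventually.of_forall fun r hr => ?_)
    have : 0 ≤ r - c := sub_nonneg.2 hr.1
    positivity

theorem cj_step (a b : ℝ) (d : ℕ) :
    ∫⁻ r : ℝ, (if r - a ≤ 1 then (1 : ENNReal) else 0) *
      (if b - r ≤ d + 1 then ENNReal.ofReal ((d + 1 - (b - r)) ^ d / d.factorial) else 0) ≤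
    if b - a ≤ (d + 1 : ℕ) + 1 then
      ENNReal.ofReal (((d + 1 : ℕ) + 1 - (b - a)) ^ (d + 1) / (d + 1).factorial) else 0 := by
  have e : ∀ r : ℝ, (if r - a ≤ 1 then (1 : ENNReal) else 0) *
      (if b - r ≤ d + 1 then ENNReal.ofReal ((d + 1 - (b - r)) ^ d / d.factorial) else 0) =
      (Set.Icc (b - (d + 1)) (a + 1)).indicator
        (fun r => ENNReal.ofReal ((r - (b - (d + 1))) ^ d / d.factorial)) r := by
    intro r
    by_cases h1 : r - a ≤ 1
    · by_cases h2 : b - r ≤ d + 1
      · rw [if_pos h1, if_pos h2, one_mul, Set.indicator_of_mem]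
        · congr 2
          ring
        · exact ⟨by linarith, by linarith⟩
      · rw [if_neg h2, mul_zero, Set.indicator_of_notMem]
        intro h
        exact h2 (by linarith [h.1])
    · rw [if_neg h1, zero_mul, Set.indicator_of_notMem]
      intro h
      exact h1 (by linarith [h.2])
  simp only [e]
  rw [lintegral_indicator measurableSet_Icc]
  split_ifs with h
  · push_cast at h
    rw [cj_int _ _ (by linarith)]
    apply le_of_eq
    congr 2
    push_cast
    ring
  · push_cast at h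
    rw [Set.Icc_eq_empty (by linarith)]
    simp

theorem cj_seg {A : Type} [Fintype A] [DecidableEq A] (d : ℕ) : ∀ (γ : ℕ → A)
    (_ : Set.InjOn γ (Set.Iic (d + 1))) (x : A → ℝ),
    lmg ({φ : A → ℝ | ∀ j ≤ d, φ (γ (j + 1)) - φ (γ j) ≤ 1}.indicator 1)
      ((Finset.Ioo 0 (d + 1)).image γ) x ≤
      if x (γ (d + 1)) - x (γ 0) ≤ d + 1 then
        ENNReal.ofReal ((d + 1 - (x (γ (d + 1)) - x (γ 0))) ^ d / d.factorial) else 0 := by
  induction d with
  | zero =>
    intro γ _ x
    have e : (Finset.Ioo 0 (0 + 1)).image γ = ∅ := by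
      have e' : Finset.Ioo 0 (0 + 1) = (∅ : Finset ℕ) := by decide
      rw [e', Finset.image_empty]
    rw [e, lmg_empty]
    simp only [Nat.le_zero, forall_eq, zero_add, pow_zero, Nat.factorial_zero, Nat.cast_one,
      div_one, Nat.cast_zero, ENNReal.ofReal_one]
    split_ifs with h
    · rw [Set.indicator_of_mem (by exact h)]
      simp
    · rw [Set.indicator_of_notMem (by exact h)]
  | succ d ih =>
    intro γ hγ x
    set S : Finset A := (Finset.Ioo 0 (d + 1 + 1)).image γ with hS
    set S' : Finset A := (Finset.Ioo 0 (d + 1)).image (fun j => γ (j + 1)) with hS'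
    have hmem : γ 1 ∈ S := Finset.mem_image_of_mem _ (by simp)
    have hn : ∀ i ≤ 1, γ i ∉ S' := by
      intro i hi h
      obtain ⟨j, hj, hji⟩ := Finset.mem_image.1 h
      rw [Finset.mem_Ioo] at hj
      have := hγ (show j + 1 ∈ Set.Iic (d + 1 + 1) from by simp only [Set.mem_Iic]; omega)
        (show i ∈ Set.Iic (d + 1 + 1) from by simp only [Set.mem_Iic]; omega) hji
      omega
    have her : S.erase (γ 1) = S' := by
      ext y
      simp only [hS, hS', Finset.mem_erase, Finset.mem_image, Finset.mem_Ioo]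
      constructor
      · rintro ⟨hy, j, hj, rfl⟩
        refine ⟨j - 1, ?_, ?_⟩
        · have : j ≠ 1 := fun h => hy (by rw [h])
          omega
        · congr 1
          omega
      · rintro ⟨j, hj, rfl⟩
        refine ⟨fun h => ?_, j + 1, by omega, rfl⟩
        exact hn 1 le_rfl (by
          rw [hS', ← h]
          exact Finset.mem_image_of_mem (fun j => γ (j + 1)) (Finset.mem_Ioo.2 (by omega)))
    have hF : Measurable ({φ : A → ℝ | ∀ j ≤ d + 1, φ (γ (j + 1)) - φ (γ j) ≤ 1}.indicator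
        (1 : (A → ℝ) → ENNReal)) := measurable_one.indicator (cj_meas _ _)
    have hF' : Measurable ({φ : A → ℝ | ∀ j ≤ d, φ (γ (j + 1 + 1)) - φ (γ (j + 1)) ≤ 1}.indicator
        (1 : (A → ℝ) → ENNReal)) :=
      measurable_one.indicator (cj_meas d (fun j => γ (j + 1)))
    rw [lmg_erase hF hmem x, her]
    have hfac : ({φ : A → ℝ | ∀ j ≤ d + 1, φ (γ (j + 1)) - φ (γ j) ≤ 1}.indicator
        (1 : (A → ℝ) → ENNReal)) = fun y => (if y (γ 1) - y (γ 0) ≤ 1 then (1 : ENNReal) else 0) *
          ({φ : A → ℝ | ∀ j ≤ d, φ (γ (j + 1 + 1)) - φ (γ (j + 1)) ≤ 1}.indicator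
        (1 : (A → ℝ) → ENNReal)) y := by
      funext y
      by_cases h1 : y (γ 1) - y (γ 0) ≤ 1
      · rw [if_pos h1, one_mul]
        by_cases h2 : ∀ j ≤ d, y (γ (j + 1 + 1)) - y (γ (j + 1)) ≤ 1
        · have h3 : y ∈ {φ : A → ℝ | ∀ j ≤ d + 1, φ (γ (j + 1)) - φ (γ j) ≤ 1} := by
            intro j hj
            rcases j with _ | j
            · exact h1
            · exact h2 j (by omega)
          have h4 : y ∈ {φ : A → ℝ | ∀ j ≤ d, φ (γ (j + 1 + 1)) - φ (γ (j + 1)) ≤ 1} := h2
          rw [Set.indicator_of_mem h3, Set.indicator_of_mem h4]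
        · rw [Set.indicator_of_notMem, Set.indicator_of_notMem]
          · exact h2
          · intro h
            exact h2 fun j hj => h (j + 1) (by omega)
      · rw [if_neg h1, zero_mul, Set.indicator_of_notMem]
        intro h
        exact h1 (h 0 (by omega))
    rw [hfac]
    have hstep := cj_step (x (γ 0)) (x (γ (d + 1 + 1))) d
    refine le_trans (lintegral_mono fun r => ?_) hstep
    have hm : lmg (fun y => (if y (γ 1) - y (γ 0) ≤ 1 then (1 : ENNReal) else 0) *
          ({φ : A → ℝ | ∀ j ≤ d, φ (γ (j + 1 + 1)) - φ (γ (j + 1)) ≤ 1}.indicator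
        (1 : (A → ℝ) → ENNReal)) y) S' (Function.update x (γ 1) r) = _ :=
      lmg_mul hF' S' (G := fun y => if y (γ 1) - y (γ 0) ≤ 1 then (1 : ENNReal) else 0)
        (by
          intro y y' hy
          simp only [hy (γ 1) (hn 1 le_rfl), hy (γ 0) (hn 0 (by omega))])
        (Function.update x (γ 1) r)
    rw [hm]
    have hinj : Set.InjOn (fun j => γ (j + 1)) (Set.Iic (d + 1)) := by
      intro i hi j hj hij
      simp only [Set.mem_Iic] at hi hj
      have := hγ (show i + 1 ∈ Set.Iic (d + 1 + 1) from by simp only [Set.mem_Iic]; omega)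
        (show j + 1 ∈ Set.Iic (d + 1 + 1) from by simp only [Set.mem_Iic]; omega) hij
      omega
    have hi := ih (fun j => γ (j + 1)) hinj (Function.update x (γ 1) r)
    have h01 : γ 0 ≠ γ 1 := fun h => by
      have := hγ (show 0 ∈ Set.Iic (d + 1 + 1) from by simp)
        (show 1 ∈ Set.Iic (d + 1 + 1) from by simp) h
      omega
    have hd1 : γ (d + 1 + 1) ≠ γ 1 := fun h => by
      have := hγ (show d + 1 + 1 ∈ Set.Iic (d + 1 + 1) from by simp)
        (show 1 ∈ Set.Iic (d + 1 + 1) from by simp) h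
      omega
    have u1 : Function.update x (γ 1) r (γ 1) = r := Function.update_self _ _ _
    have u0 : Function.update x (γ 1) r (γ 0) = x (γ 0) := Function.update_of_ne h01 _ _
    have ud : Function.update x (γ 1) r (γ (d + 1 + 1)) = x (γ (d + 1 + 1)) :=
      Function.update_of_ne hd1 _ _
    simp only [zero_add] at hi
    rw [u1, ud] at hi
    simp only [u1, u0]
    exact mul_le_mul' le_rfl hi

/-- the volume of the paths with steps at most `1` and a given increment -/
theorem seg_vol {A : Type} [Fintype A] [DecidableEq A] (d : ℕ) (γ : ℕ → A)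
    (hγ : Set.InjOn γ (Set.Iic (d + 1))) (x : A → ℝ) :
    lmg ({φ : A → ℝ | ∀ j ≤ d, φ (γ (j + 1)) - φ (γ j) ≤ 1}.indicator 1)
      ((Finset.Ioo 0 (d + 1)).image γ) x ≤
      ENNReal.ofReal ((max 0 (d + 1 - (x (γ (d + 1)) - x (γ 0)))) ^ d / d.factorial) := by
  refine le_trans (cj_seg d γ hγ x) ?_
  split_ifs with h
  · rw [max_eq_right (by linarith)]
  · exact zero_le

/-- the interior of a steep edge -/
theorem edge_vol (n m : ℕ) [NeZero n] (hm : 1 ≤ m) (e : (ℤ × ℤ) × Fin 4)
    (h : Set.InjOn (sg n m e.1 e.2) (Set.Iic (2 * m))) (x : Tor n → ℝ) :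
    lmg ((Hs n m e).indicator 1) (Xe n m e) x ≤ ENNReal.ofReal (be m) := by
  obtain ⟨d, hd⟩ : ∃ d, 2 * m = d + 1 := ⟨2 * m - 1, by omega⟩
  have hdm : 2 * m - 1 = d := by omega
  have hdr : (2 * m : ℝ) = d + 1 := by exact_mod_cast hd
  set γ : ℕ → Tor n := sg n m e.1 e.2 with hγ
  set S : Finset (Tor n) := (Finset.Ioo 0 (d + 1)).image γ with hS
  have hXe : Xe n m e = S := by rw [Xe, hd]
  rw [hXe]
  rw [hd] at h
  have hn : ∀ i, i = 0 ∨ i = d + 1 → γ i ∉ S := by
    intro i hi hmem
    obtain ⟨j, hj, hji⟩ := Finset.mem_image.1 hmem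
    rw [Finset.mem_Ioo] at hj
    have := h (show j ∈ Set.Iic (d + 1) from by simp only [Set.mem_Iic]; omega)
      (show i ∈ Set.Iic (d + 1) from by simp only [Set.mem_Iic]; omega) hji
    omega
  have hFm : MeasurableSet {φ : Tor n → ℝ | ∀ j ≤ d, |φ (γ (j + 1)) - φ (γ j)| ≤ 1} := by
    simp only [Set.ofPred_forall]
    refine MeasurableSet.iInter fun j => MeasurableSet.iInter fun _ => measurableSet_le ?_
      measurable_const
    exact ((measurable_pi_apply (γ (j + 1))).sub (measurable_pi_apply (γ j))).abs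
  have hF : Measurable ({φ : Tor n → ℝ | ∀ j ≤ d, |φ (γ (j + 1)) - φ (γ j)| ≤ 1}.indicator
      (1 : (Tor n → ℝ) → ENNReal)) := measurable_one.indicator hFm
  have hfac : ((Hs n m e).indicator (1 : (Tor n → ℝ) → ENNReal)) = fun y =>
      (if (1 - ep) * (2 * m) < |y (γ (d + 1)) - y (γ 0)| then (1 : ENNReal) else 0) *
        ({φ : Tor n → ℝ | ∀ j ≤ d, |φ (γ (j + 1)) - φ (γ j)| ≤ 1}.indicator
      (1 : (Tor n → ℝ) → ENNReal)) y := by
    funext y
    have hiff : y ∈ Hs n m e ↔ (∀ j ≤ d, |y (γ (j + 1)) - y (γ j)| ≤ 1) ∧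
        (1 - ep) * (2 * m) < |y (γ (d + 1)) - y (γ 0)| := by
      simp only [Hs, Set.mem_ofPred_eq, hd]
      constructor
      · rintro ⟨h1, h2⟩
        exact ⟨fun j hj => h1 j (by omega), h2⟩
      · rintro ⟨h1, h2⟩
        exact ⟨fun j hj => h1 j (by omega), h2⟩
    by_cases h1 : (1 - ep) * (2 * m) < |y (γ (d + 1)) - y (γ 0)|
    · rw [if_pos h1, one_mul]
      by_cases h2 : ∀ j ≤ d, |y (γ (j + 1)) - y (γ j)| ≤ 1
      · have h3 : y ∈ {φ : Tor n → ℝ | ∀ j ≤ d, |φ (γ (j + 1)) - φ (γ j)| ≤ 1} := h2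
        rw [Set.indicator_of_mem (hiff.2 ⟨h2, h1⟩), Set.indicator_of_mem h3]
      · rw [Set.indicator_of_notMem (fun h => h2 (hiff.1 h).1), Set.indicator_of_notMem]
        exact h2
    · rw [if_neg h1, zero_mul, Set.indicator_of_notMem (fun h => h1 (hiff.1 h).2)]
  rw [hfac]
  have hm' : lmg (fun y =>
      (if (1 - ep) * (2 * m) < |y (γ (d + 1)) - y (γ 0)| then (1 : ENNReal) else 0) *
        ({φ : Tor n → ℝ | ∀ j ≤ d, |φ (γ (j + 1)) - φ (γ j)| ≤ 1}.indicator
      (1 : (Tor n → ℝ) → ENNReal)) y) S x = _ :=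
    lmg_mul hF S (G := fun y =>
      (if (1 - ep) * (2 * m) < |y (γ (d + 1)) - y (γ 0)| then (1 : ENNReal) else 0))
      (by
        intro y y' hy
        simp only [hy (γ (d + 1)) (hn _ (Or.inr rfl)), hy (γ 0) (hn _ (Or.inl rfl))]) x
  rw [hm']
  by_cases hst : (1 - ep) * (2 * m) < |x (γ (d + 1)) - x (γ 0)|
  swap
  · rw [if_neg hst, zero_mul]
    exact zero_le
  rw [if_pos hst, one_mul]
  have hbe : ∀ D : ℝ, (1 - ep) * (2 * m) < D →
      ENNReal.ofReal ((max 0 (d + 1 - D)) ^ d / d.factorial) ≤ ENNReal.ofReal (be m) := by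
    intro D hD
    apply ENNReal.ofReal_le_ofReal
    rw [be, hdm]
    have hep : (0 : ℝ) ≤ ep := by rw [ep]; norm_num
    have h1 : max 0 ((d : ℝ) + 1 - D) ≤ ep * (2 * m) := by
      refine max_le (by positivity) ?_
      rw [← hdr]
      linarith
    have h2 : 0 ≤ max 0 ((d : ℝ) + 1 - D) := le_max_left _ _
    gcongr
  rcases le_total 0 (x (γ (d + 1)) - x (γ 0)) with hpos | hneg
  · rw [abs_of_nonneg hpos] at hst
    refine le_trans ?_ (hbe _ hst)
    refine le_trans (lmg_mono (fun y => ?_) S x) (seg_vol d γ h x)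
    refine Set.indicator_le_indicator_of_subset ?_ (fun _ => zero_le) y
    intro φ hφ j hj
    exact le_trans (le_abs_self _) (hφ j hj)
  · rw [abs_of_nonpos hneg] at hst
    have hst' : (1 - ep) * (2 * m) < x (γ 0) - x (γ (d + 1)) := by linarith
    refine le_trans ?_ (hbe _ hst')
    have hinj : Set.InjOn (fun j => γ (d + 1 - j)) (Set.Iic (d + 1)) := by
      intro i hi j hj hij
      simp only [Set.mem_Iic] at hi hj
      have := h (show d + 1 - i ∈ Set.Iic (d + 1) from by simp only [Set.mem_Iic]; omega)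
        (show d + 1 - j ∈ Set.Iic (d + 1) from by simp only [Set.mem_Iic]; omega) hij
      omega
    have hseg := seg_vol d (fun j => γ (d + 1 - j)) hinj x
    have him : (Finset.Ioo 0 (d + 1)).image (fun j => γ (d + 1 - j)) = S := by
      ext y
      simp only [hS, Finset.mem_image, Finset.mem_Ioo]
      constructor
      · rintro ⟨j, hj, rfl⟩
        exact ⟨d + 1 - j, by omega, rfl⟩
      · rintro ⟨j, hj, rfl⟩
        refine ⟨d + 1 - j, by omega, ?_⟩
        congr 1
        omega
    rw [him] at hseg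
    simp only [Nat.sub_self, Nat.sub_zero] at hseg
    refine le_trans (lmg_mono (fun y => ?_) S x) hseg
    refine Set.indicator_le_indicator_of_subset ?_ (fun _ => zero_le) y
    intro φ hφ j hj
    show φ (γ (d + 1 - (j + 1))) - φ (γ (d + 1 - j)) ≤ 1
    have h1 := hφ (d - j) (by omega)
    have e1 : d - j + 1 = d + 1 - j := by omega
    have e2 : d + 1 - (j + 1) = d - j := by omega
    rw [e1] at h1
    rw [e2]
    rw [abs_sub_comm] at h1
    exact le_trans (le_abs_self _) h1

end HKC
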