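import Mathlib
import Pool.Agent.Lib_helper14.HKC.DefsC
import Pool.Agent.Lib_helper12.HK.W.ab
import Pool.Agent.Lib_helper14.HKC.W.ca

set_option autoImplicit false

namespace HKC

open MeasureTheory QG HK

/-- independent events -/
theorem prod_vol {A C : Type} [Fintype A] [DecidableEq A] [DecidableEq C] (T : Finset C)
    (H : C → Set (A → ℝ)) (X : C → Finset A) (hm : ∀ c ∈ T, MeasurableSet (H c))
    (hX : ∀ c ∈ T, ∀ c' ∈ T, c ≠ c' → Disjoint (X c) (X c'))
    (hH : ∀ c ∈ T, ∀ c' ∈ T, c ≠ c' → ∀ x y : A → ℝ, (∀ i ∉ X c', x i = y i) → x ∈ H c → y ∈ H c)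
    (β : ENNReal) (hβ : ∀ c ∈ T, ∀ x, lmg ((H c).indicator 1) (X c) x ≤ β) (x : A → ℝ) :
    lmg ({y | ∀ c ∈ T, y ∈ H c}.indicator 1) (T.biUnion X) x ≤ β ^ T.card := by
  induction T using Finset.induction_on with
  | empty =>
    rw [Finset.biUnion_empty, lmg_empty, Finset.card_empty, pow_zero]
    exact Set.indicator_le_self' (fun _ _ => zero_le) x
  | insert c T hc ih =>
    have hcT : c ∈ insert c T := Finset.mem_insert_self _ _
    have hne : ∀ c' ∈ T, c' ≠ c := fun c' h h' => hc (h' ▸ h)
    have hms : ∀ S : Finset C, S ⊆ insert c T → MeasurableSet {y | ∀ c ∈ S, y ∈ H c} := by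
      intro S hS
      rw [show {y | ∀ c ∈ S, y ∈ H c} = ⋂ c ∈ S, H c from by
        ext y
        simp only [Set.mem_iInter]
        exact Iff.rfl]
      exact Finset.measurableSet_biInter _ fun c' h => hm c' (hS h)
    have hmT := hms T (Finset.subset_insert _ _)
    have hmI := hms (insert c T) (Finset.Subset.refl _)
    have hdis : Disjoint (X c) (T.biUnion X) := by
      rw [Finset.disjoint_biUnion_right]
      intro c' h
      exact hX c hcT c' (Finset.mem_insert_of_mem h) (hne c' h).symm
    rw [Finset.biUnion_insert, lmg_union (measurable_one.indicator hmI) hdis,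
      Finset.card_insert_of_notMem hc, pow_succ']
    have h1 : ∀ φ : A → ℝ, lmg ({y | ∀ c' ∈ insert c T, y ∈ H c'}.indicator 1) (X c) φ ≤
        β * {y | ∀ c' ∈ T, y ∈ H c'}.indicator 1 φ := by
      intro φ
      have h2 : ({y | ∀ c' ∈ insert c T, y ∈ H c'}.indicator (1 : (A → ℝ) → ENNReal)) =
          fun φ => {y | ∀ c' ∈ T, y ∈ H c'}.indicator 1 φ * (H c).indicator 1 φ := by
        have h3 : {y | ∀ c' ∈ insert c T, y ∈ H c'} = {y | ∀ c' ∈ T, y ∈ H c'} ∩ H c := by
          ext y
          constructor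
          · intro h
            exact ⟨fun c' h' => h c' (Finset.mem_insert_of_mem h'), h c hcT⟩
          · rintro ⟨h3, h4⟩ c' h'
            rcases Finset.mem_insert.mp h' with rfl | h5
            · exact h4
            · exact h3 c' h5
        rw [h3, Set.inter_indicator_one]
        rfl
      rw [h2, lmg_mul (measurable_one.indicator (hm c hcT)), mul_comm]
      · exact mul_le_mul_left (hβ c hcT φ) _
      · intro y z hyz
        have h3 : y ∈ {y | ∀ c' ∈ T, y ∈ H c'} ↔ z ∈ {y | ∀ c' ∈ T, y ∈ H c'} := by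
          constructor
          · intro h c' h'
            exact hH c' (Finset.mem_insert_of_mem h') c hcT (hne c' h') y z hyz (h c' h')
          · intro h c' h'
            exact hH c' (Finset.mem_insert_of_mem h') c hcT (hne c' h') z y
              (fun i hi => (hyz i hi).symm) (h c' h')
        by_cases h5 : y ∈ {y | ∀ c' ∈ T, y ∈ H c'}
        · rw [Set.indicator_of_mem h5, Set.indicator_of_mem (h3.mp h5)]
          rfl
        · rw [Set.indicator_of_notMem h5, Set.indicator_of_notMem (fun h => h5 (h3.mpr h))]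
    have ih' := ih (fun c' h => hm c' (Finset.mem_insert_of_mem h))
      (fun c' h c'' h' => hX c' (Finset.mem_insert_of_mem h) c'' (Finset.mem_insert_of_mem h'))
      (fun c' h c'' h' => hH c' (Finset.mem_insert_of_mem h) c'' (Finset.mem_insert_of_mem h'))
      (fun c' h => hβ c' (Finset.mem_insert_of_mem h))
    calc lmg (lmg ({y | ∀ c' ∈ insert c T, y ∈ H c'}.indicator 1) (X c)) (T.biUnion X) x
        ≤ lmg (fun φ => β * {y | ∀ c' ∈ T, y ∈ H c'}.indicator 1 φ) (T.biUnion X) x :=
          lmg_mono h1 _ _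
      _ = β * lmg ({y | ∀ c' ∈ T, y ∈ H c'}.indicator 1) (T.biUnion X) x :=
          lmg_mul (G := fun _ => β) (measurable_one.indicator hmT) _ (fun _ _ _ => rfl) x
      _ ≤ β * β ^ T.card := mul_le_mul_right ih' _

end HKC
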