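import Mathlib
import Pool.Agent.Lib_helper14.HKC.DefsC
import Pool.Agent.Lib_helper12.HK.W.ab
import Pool.Agent.Lib_helper14.HKC.W.ca
import Pool.Agent.Lib_helper14.HKC.W.cj
import Pool.Agent.Lib_helper14.HKC.W.ck
import Pool.Agent.Lib_helper14.HKC.W.cl

set_option autoImplicit false

namespace HKC

open MeasureTheory QG HK

theorem cq_meas_ind {A : Type} [Fintype A] {s : Set (A → ℝ)} (hs : MeasurableSet s) :
    Measurable (s.indicator (1 : (A → ℝ) → ENNReal)) := by
  exact measurable_one.indicator hs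

/-- C4: the volume of the functions that are steep on a family of far edges -/
theorem steep_vol (n m : ℕ) [NeZero n] (hm : 2 ≤ m) (hn : 64 * m ≤ n) (T : Finset (ℤ × ℤ))
    (e : ℤ × ℤ → (ℤ × ℤ) × Fin 4) (he : FarE n m T e) :
    vol n (pp n).1 ∅ {φ | ∀ c ∈ T, (1 - ep) * (2 * m) <
      |φ (ke n m ((e c).1 + dz (e c).2)).1 - φ (ke n m (e c).1).1|} ≤
      ENNReal.ofReal (be m) ^ T.card * vol n (pp n).1 (XT n m T e) Set.univ := by
  classical
  have hsub : XT n m T e ⊆ Finset.univ.erase (pp n).1 := by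
    intro y hy
    unfold XT Xe at hy
    rw [Finset.mem_biUnion] at hy
    obtain ⟨c, hc, hy⟩ := hy
    rw [Finset.mem_image] at hy
    obtain ⟨j, hj, rfl⟩ := hy
    rw [Finset.mem_Ioo] at hj
    exact Finset.mem_erase.2 ⟨sg_pp n m hm hn (he c hc).1 (by omega), Finset.mem_univ _⟩
  set XX := XT n m T e with hXX
  set S := (Finset.univ.erase (pp n).1) \ XX with hS
  have hun : (Finset.univ.erase (pp n).1) \ (∅ : Finset (Tor n)) = XX ∪ S := by
    rw [hS, Finset.sdiff_empty, Finset.union_sdiff_of_subset hsub]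
  have hdis : Disjoint XX S := Finset.disjoint_sdiff
  set H : Set (Tor n → ℝ) := {y | ∀ c ∈ T, y ∈ Hs n m (e c)} with hH
  have hHm : MeasurableSet H := by
    have : H = ⋂ c ∈ T, Hs n m (e c) := by
      ext y
      simp [hH]
    rw [this]
    exact Finset.measurableSet_biInter T fun c _ => hs_meas n m (e c)
  have hLm : MeasurableSet (Lip n XX) := lip_meas n XX
  set F : (Tor n → ℝ) → ENNReal := fun y => (Lip n XX).indicator 1 y * H.indicator 1 y with hF
  have hFm : Measurable F := (cq_meas_ind hLm).mul (cq_meas_ind hHm)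
  have step1 : vol n (pp n).1 ∅ {φ | ∀ c ∈ T, (1 - ep) * (2 * m) <
      |φ (ke n m ((e c).1 + dz (e c).2)).1 - φ (ke n m (e c).1).1|} ≤ lmg F (XX ∪ S) 0 := by
    unfold vol
    rw [hun]
    refine lmg_mono ?_ _ _
    intro φ
    by_cases hφ : φ ∈ Lip n ∅ ∩ {φ | ∀ c ∈ T, (1 - ep) * (2 * m) <
      |φ (ke n m ((e c).1 + dz (e c).2)).1 - φ (ke n m (e c).1).1|}
    · rw [Set.indicator_of_mem hφ]
      obtain ⟨h1, h2⟩ := hφ
      have h3 : φ ∈ Lip n XX := lip_anti n (Finset.empty_subset _) h1
      have h4 : φ ∈ H := by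
        intro c hc
        refine ⟨?_, ?_⟩
        · intro j _
          rw [sg_succ]
          exact h1 _ (by simp) _ (by simp)
        · rw [(sg_ends n m (e c).1 (e c).2).1, (sg_ends n m (e c).1 (e c).2).2]
          exact h2 c hc
      simp only [hF]
      rw [Set.indicator_of_mem h3, Set.indicator_of_mem h4]
      simp
    · rw [Set.indicator_of_notMem hφ]
      exact bot_le
  have hbd : ∀ x, lmg (H.indicator 1) XX x ≤ ENNReal.ofReal (be m) ^ T.card := by
    intro x
    have hne : ∀ c ∈ T, ∀ c' ∈ T, c ≠ c' → ∀ j j' : ℕ, j ≤ 2 * m → j' ≤ 2 * m →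
        sg n m (e c).1 (e c).2 j ≠ sg n m (e c').1 (e c').2 j' := by
      intro c hc c' hc' hcc j j' hj hj' h
      have := sg_far n m hm hn (i := (e c).2) (i' := (e c').2) (he c hc).1 (he c' hc').1
        ((he c hc).2.2 c' hc' hcc) hj hj' (a := 0) (b := 0) (by simp) (by simp)
      apply this
      rw [← h]
      simp [of]
    have := prod_vol T (fun c => Hs n m (e c)) (fun c => Xe n m (e c))
      (fun c _ => hs_meas n m (e c)) ?_ ?_ (ENNReal.ofReal (be m)) ?_ x
    · exact this
    · intro c hc c' hc' hcc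
      rw [Finset.disjoint_left]
      intro y hy hy'
      unfold Xe at hy hy'
      rw [Finset.mem_image] at hy hy'
      obtain ⟨j, hj, rfl⟩ := hy
      obtain ⟨j', hj', h⟩ := hy'
      rw [Finset.mem_Ioo] at hj hj'
      exact hne c hc c' hc' hcc j j' (by omega) (by omega) h.symm
    · intro c hc c' hc' hcc x y hxy hx
      have hval : ∀ j ≤ 2 * m, x (sg n m (e c).1 (e c).2 j) = y (sg n m (e c).1 (e c).2 j) := by
        intro j hj
        apply hxy
        intro hy
        unfold Xe at hy
        rw [Finset.mem_image] at hy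
        obtain ⟨j', hj', h⟩ := hy
        rw [Finset.mem_Ioo] at hj'
        exact hne c hc c' hc' hcc j j' (by omega) (by omega) h.symm
      obtain ⟨h1, h2⟩ := hx
      refine ⟨?_, ?_⟩
      · intro j hj
        rw [← hval j (by omega), ← hval (j + 1) (by omega)]
        exact h1 j hj
      · rw [← hval (2 * m) le_rfl, ← hval 0 (by omega)]
        exact h2
    · intro c _ z
      exact edge_vol n m (by omega) (e c) (sg_inj n m hm hn (e c).1 (e c).2) z
  have step2 : ∀ x, lmg F XX x ≤ ENNReal.ofReal (be m) ^ T.card * (Lip n XX).indicator 1 x := by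
    intro x
    have hG : ∀ x y : Tor n → ℝ, (∀ i ∉ XX, x i = y i) →
        (Lip n XX).indicator (1 : (Tor n → ℝ) → ENNReal) x = (Lip n XX).indicator 1 y := by
      intro x y hxy
      by_cases hx : x ∈ Lip n XX
      · rw [Set.indicator_of_mem hx, Set.indicator_of_mem (lip_indep n hxy hx)]
        rfl
      · have hy : y ∉ Lip n XX := fun hy =>
          hx (lip_indep n (fun i hi => (hxy i hi).symm) hy)
        rw [Set.indicator_of_notMem hx, Set.indicator_of_notMem hy]
    have := lmg_mul (cq_meas_ind hHm) XX (G := (Lip n XX).indicator 1) hG x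
    rw [hF, this, mul_comm]
    exact mul_le_mul_left (hbd x) _
  calc _ ≤ lmg F (XX ∪ S) 0 := step1
    _ = lmg (lmg F XX) S 0 := lmg_union hFm hdis 0
    _ ≤ lmg (fun x => ENNReal.ofReal (be m) ^ T.card * (Lip n XX).indicator 1 x) S 0 :=
        lmg_mono step2 S 0
    _ = ENNReal.ofReal (be m) ^ T.card * lmg ((Lip n XX).indicator 1) S 0 :=
        lmg_mul (cq_meas_ind hLm) S (G := fun _ => ENNReal.ofReal (be m) ^ T.card)
          (fun _ _ _ => rfl) 0
    _ = ENNReal.ofReal (be m) ^ T.card * vol n (pp n).1 XX Set.univ := by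
        unfold vol
        rw [Set.inter_univ]

end HKC
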