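import Mathlib
import Pool.Agent.Lib_helper14.HKC.DefsC
import Pool.Agent.Lib_helper14.HKC.W.ca
import Pool.Agent.Lib_helper14.HKC.W.cf
import Pool.Agent.Lib_helper14.HKC.W.ch
import Pool.Agent.Lib_helper14.HKC.W.cm
import Pool.Agent.Lib_helper14.HKC.W.cp
import Pool.Agent.Lib_helper14.HKC.W.cq

set_option autoImplicit false

namespace HKC

open MeasureTheory QG HK

theorem cr_be (m : ℕ) : 0 ≤ be m := by
  unfold be ep
  positivity

/-- the probability that all the edges of a far family are steep -/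
theorem steep_prob (n m : ℕ) [NeZero n] (hm : 2 ≤ m) (hn : 64 * m ≤ n) (T : Finset (ℤ × ℤ))
    (e : ℤ × ℤ → (ℤ × ℤ) × Fin 4) (he : FarE n m T e) :
    muh n 0 {a | ∀ c ∈ T, Steep n m a (e c).1 ((e c).1 + dz (e c).2)} ≤
      ENNReal.ofReal (be m * 512 ^ (2 * m - 1)) ^ T.card := by
  have hE : MeasurableSet {a : Ev n → ℝ | ∀ c ∈ T, Steep n m a (e c).1 ((e c).1 + dz (e c).2)} := by
    rw [show {a : Ev n → ℝ | ∀ c ∈ T, Steep n m a (e c).1 ((e c).1 + dz (e c).2)} =
      ⋂ c ∈ T, {a : Ev n → ℝ | Steep n m a (e c).1 ((e c).1 + dz (e c).2)} from by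
        ext a
        simp only [Set.mem_iInter]
        exact Iff.rfl]
    refine Finset.measurableSet_biInter _ fun c _ => ?_
    have h1 : Measurable fun a : Ev n → ℝ => a (ke n m (e c).1) := measurable_pi_apply _
    have h2 : Measurable fun a : Ev n → ℝ => a (ke n m ((e c).1 + dz (e c).2)) :=
      measurable_pi_apply _
    exact measurableSet_lt measurable_const (h1.sub h2).abs
  have hV0 := vol_pos n (pp n).1
  have hV1 := vol_fin n (pp n).1
  obtain ⟨l, hl, hR, hlen, hp⟩ := XT_list n m hm hn T e he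
  have h1 := muh_vol n hE
  have h2 := steep_vol n m hm hn T e he
  have h3 := rm_list n (by omega) l hR hp
  rw [hl, hlen] at h3
  have hset : {φ : Tor n → ℝ | (fun y : Ev n => φ y.1) ∈
      {a : Ev n → ℝ | ∀ c ∈ T, Steep n m a (e c).1 ((e c).1 + dz (e c).2)}} =
      {φ : Tor n → ℝ | ∀ c ∈ T, (1 - ep) * (2 * m) <
      |φ (ke n m ((e c).1 + dz (e c).2)).1 - φ (ke n m (e c).1).1|} := by
    ext φ
    constructor
    · intro h c hc
      rw [abs_sub_comm]
      exact h c hc
    · intro h c hc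
      have := h c hc
      rw [abs_sub_comm] at this
      exact this
  rw [hset] at h1
  have h4 : muh n 0 {a | ∀ c ∈ T, Steep n m a (e c).1 ((e c).1 + dz (e c).2)} *
      vol n (pp n).1 ∅ Set.univ ≤
      ENNReal.ofReal (be m * 512 ^ (2 * m - 1)) ^ T.card * vol n (pp n).1 ∅ Set.univ := by
    rw [h1]
    refine h2.trans ((mul_le_mul_right h3 _).trans (le_of_eq ?_))
    rw [← mul_assoc]
    congr 1
    rw [ENNReal.ofReal_mul (cr_be m), mul_pow, pow_mul]
    congr 2
    rw [ENNReal.ofReal_pow (by norm_num)]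
    norm_num
  exact (ENNReal.mul_le_mul_iff_left hV0 hV1).mp h4

end HKC
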