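import Mathlib
import Pool.Agent.Lib_helper14.HKC.DefsC
import Pool.Agent.Lib_helper14.HKC.W.ca
import Pool.Agent.Lib_helper14.HKC.W.cr

set_option autoImplicit false

namespace HKC

open MeasureTheory QG HK

theorem cs_nn {k1 k2 : ℤ × ℤ} (h : nn k1 k2) : ∃ i : Fin 4, k2 = k1 + dz i := by
  unfold nn at h
  obtain ⟨a, b⟩ := k1
  obtain ⟨c, d⟩ := k2
  simp only at h
  have h0 : |a - c| = 0 ∧ |b - d| = 1 ∨ |a - c| = 1 ∧ |b - d| = 0 := by
    have h1 := abs_nonneg (a - c)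
    have h2 := abs_nonneg (b - d)
    omega
  rcases h0 with ⟨h1, h2⟩ | ⟨h1, h2⟩
  · rw [abs_eq_zero] at h1
    rcases (abs_eq (by norm_num)).1 h2 with h3 | h3
    · refine ⟨3, ?_⟩
      simp only [dz, Prod.ext_iff, Prod.fst_add, Prod.snd_add]
      simp
      omega
    · refine ⟨2, ?_⟩
      simp only [dz, Prod.ext_iff, Prod.fst_add, Prod.snd_add]
      simp
      omega
  · rw [abs_eq_zero] at h2
    rcases (abs_eq (by norm_num)).1 h1 with h3 | h3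
    · refine ⟨0, ?_⟩
      simp only [dz, Prod.ext_iff, Prod.fst_add, Prod.snd_add]
      simp
      omega
    · refine ⟨1, ?_⟩
      simp only [dz, Prod.ext_iff, Prod.fst_add, Prod.snd_add]
      simp
      omega

/-- the windows -/
noncomputable def csW (R : ℕ) : Finset ((ℤ × ℤ) × Fin 4) :=
  ((Finset.Icc (-(R : ℤ)) R) ×ˢ (Finset.Icc (-(R : ℤ)) R)) ×ˢ Finset.univ

theorem csW_card (R : ℕ) : (csW R).card = 4 * (2 * R + 1) ^ 2 := by
  unfold csW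
  rw [Finset.card_product, Finset.card_product, Int.card_Icc, Finset.card_univ, Fintype.card_fin]
  have : ((R : ℤ) + 1 - -(R : ℤ)).toNat = 2 * R + 1 := by omega
  rw [this]
  ring

theorem cs_win (R : ℕ) (k : ℤ × ℤ) (w : (ℤ × ℤ) × Fin 4) (h : di k (k + w.1) ≤ R) :
    w ∈ csW R := by
  unfold di at h
  unfold csW
  rw [Finset.mem_product, Finset.mem_product, Finset.mem_Icc, Finset.mem_Icc]
  simp only [Prod.fst_add, Prod.snd_add] at h
  refine ⟨⟨⟨?_, ?_⟩, ?_, ?_⟩, Finset.mem_univ _⟩ <;> omega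

/-- the family of edges of `f` -/
def csE (S : Finset (ℤ × ℤ)) (f : S → (ℤ × ℤ) × Fin 4) (c : ℤ × ℤ) : (ℤ × ℤ) × Fin 4 :=
  if h : c ∈ S then (c + (f ⟨c, h⟩).1, (f ⟨c, h⟩).2) else (c, 0)

theorem cs_mem (R : ℕ) {n m : ℕ} {c k : ℤ × ℤ} (hc : c ∈ LamI n m R) (hk : di c k ≤ R) :
    k ∈ Lam n m := by
  unfold LamI at hc
  unfold Lam
  unfold di at hk
  rw [Finset.mem_product, Finset.mem_Icc, Finset.mem_Icc] at hc ⊢
  obtain ⟨⟨h1, h2⟩, h3, h4⟩ := hc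
  generalize ((n / (8 * m) : ℕ) : ℤ) = A at *
  generalize ((5 * n / (8 * m) : ℕ) : ℤ) = B at *
  refine ⟨⟨?_, ?_⟩, ?_, ?_⟩ <;> omega

theorem cs_far1 {R : ℕ} {a b c d : ℤ} (h : 2 * R + 2 < (a - b).natAbs) (h1 : (a - c).natAbs ≤ R)
    (h2 : (b - d).natAbs ≤ R) : 3 ≤ (c - d).natAbs := by
  omega

theorem cs_far (R : ℕ) {c c' k k' : ℤ × ℤ} (h : 2 * R + 2 < di c c') (hk : di c k ≤ R)
    (hk' : di c' k' ≤ R) : 3 ≤ di k k' := by
  obtain ⟨h1, h2⟩ := max_le_iff.1 hk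
  obtain ⟨h3, h4⟩ := max_le_iff.1 hk'
  rcases lt_max_iff.1 h with h5 | h5
  · exact (cs_far1 h5 h1 h3).trans (le_max_left _ _)
  · exact (cs_far1 h5 h2 h4).trans (le_max_right _ _)

theorem cs_main (R : ℕ) (n m : ℕ) [NeZero n] (hm : 2 ≤ m) (hn : 64 * m ≤ n)
    {S : Finset (ℤ × ℤ)}
    (hS : S ⊆ LamI n m R) (hd : ∀ k ∈ S, ∀ k' ∈ S, k ≠ k' → 2 * R + 2 < di k k') :
    muh n 0 {a | ∀ k ∈ S, ∃ k1 k2, nn k1 k2 ∧ di k k1 ≤ R ∧ di k k2 ≤ R ∧ Steep n m a k1 k2} ≤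
      ENNReal.ofReal (4 * (2 * R + 1) ^ 2 * (be m * 512 ^ (2 * m - 1))) ^ S.card := by
  classical
  set P : Finset (S → (ℤ × ℤ) × Fin 4) := (Fintype.piFinset (fun _ : S => csW R)).filter
    (fun f => ∀ c ∈ S, di c (csE S f c).1 ≤ R ∧ di c ((csE S f c).1 + dz (csE S f c).2) ≤ R)
    with hP
  have hcov : {a | ∀ k ∈ S, ∃ k1 k2, nn k1 k2 ∧ di k k1 ≤ R ∧ di k k2 ≤ R ∧
      Steep n m a k1 k2} ⊆ ⋃ f ∈ P,
      {a | ∀ c ∈ S, Steep n m a (csE S f c).1 ((csE S f c).1 + dz (csE S f c).2)} := by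
    intro a ha
    have h1 : ∀ k : S, ∃ w : (ℤ × ℤ) × Fin 4, di k.1 (k.1 + w.1) ≤ R ∧
        di k.1 (k.1 + w.1 + dz w.2) ≤ R ∧ Steep n m a (k.1 + w.1) (k.1 + w.1 + dz w.2) := by
      intro k
      obtain ⟨k1, k2, hnn, hk1, hk2, hst⟩ := ha k.1 k.2
      obtain ⟨i, hi⟩ := cs_nn hnn
      refine ⟨(k1 - k.1, i), ?_, ?_, ?_⟩
      · simpa using hk1
      · rw [hi] at hk2
        simpa using hk2
      · rw [hi] at hst
        simpa using hst
    choose f hf using h1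
    have hE : ∀ c (hc : c ∈ S), csE S f c = (c + (f ⟨c, hc⟩).1, (f ⟨c, hc⟩).2) := by
      intro c hc
      unfold csE
      rw [dif_pos hc]
    rw [Set.mem_iUnion₂]
    refine ⟨f, ?_, ?_⟩
    · rw [hP, Finset.mem_filter, Fintype.mem_piFinset]
      refine ⟨?_, ?_⟩
      · intro k
        exact cs_win R k.1 (f k) (hf k).1
      · intro c hc
        rw [hE c hc]
        exact ⟨(hf ⟨c, hc⟩).1, (hf ⟨c, hc⟩).2.1⟩
    · intro c hc
      rw [hE c hc]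
      exact (hf ⟨c, hc⟩).2.2
  have hone : ∀ f ∈ P, muh n 0
      {a | ∀ c ∈ S, Steep n m a (csE S f c).1 ((csE S f c).1 + dz (csE S f c).2)} ≤
      ENNReal.ofReal (be m * 512 ^ (2 * m - 1)) ^ S.card := by
    intro f hf
    rw [hP, Finset.mem_filter] at hf
    apply steep_prob n m hm hn S (csE S f)
    intro c hc
    have h1 := hf.2 c hc
    refine ⟨cs_mem R (hS hc) h1.1, cs_mem R (hS hc) h1.2, ?_⟩
    intro c' hc' hcc
    exact cs_far R (hd c hc c' hc' hcc) h1.1 (hf.2 c' hc').1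
  refine (measure_mono hcov).trans ((measure_biUnion_finset_le _ _).trans
    ((Finset.sum_le_sum hone).trans ?_))
  rw [Finset.sum_const, nsmul_eq_mul]
  have hcard : P.card ≤ (4 * (2 * R + 1) ^ 2) ^ S.card := by
    rw [hP]
    refine (Finset.card_filter_le _ _).trans ?_
    rw [Fintype.card_piFinset, Finset.prod_const, Finset.card_univ, Fintype.card_coe, csW_card]
  have h2 : ENNReal.ofReal (4 * (2 * (R : ℝ) + 1) ^ 2 * (be m * 512 ^ (2 * m - 1))) =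
      ((4 * (2 * R + 1) ^ 2 : ℕ) : ENNReal) * ENNReal.ofReal (be m * 512 ^ (2 * m - 1)) := by
    rw [← ENNReal.ofReal_natCast, ← ENNReal.ofReal_mul (Nat.cast_nonneg _)]
    congr 2
    push_cast
    ring
  rw [h2, mul_pow]
  gcongr
  exact_mod_cast hcard

/-- the union bound over the choices of steep edges in the windows -/
theorem bad_sep (n m : ℕ) [NeZero n] (hm : 2 ≤ m) (hn : 64 * m ≤ n) {S : Finset (ℤ × ℤ)}
    (hS : S ⊆ LamI n m R0) (hd : ∀ k ∈ S, ∀ k' ∈ S, k ≠ k' → 2 * R0 + 2 < di k k') :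
    muh n 0 {a | ∀ k ∈ S, Bad n m a k} ≤
      ENNReal.ofReal (4 * (2 * R0 + 1) ^ 2 * (be m * 512 ^ (2 * m - 1))) ^ S.card := by
  have h1 : muh n 0 {a | ∀ k ∈ S, Bad n m a k} ≤ muh n 0 {a | ∀ k ∈ S, ∃ k1 k2, nn k1 k2 ∧
      di k k1 ≤ R0 ∧ di k k2 ≤ R0 ∧ Steep n m a k1 k2} := by
    apply measure_mono
    intro a ha k hk
    exact (ha k hk).2
  refine h1.trans ?_
  generalize R0 = R at *
  exact cs_main R n m hm hn hS hd

end HKC
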