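import Mathlib
import Pool.Agent.Lib_helper14.HKC.DefsC

set_option autoImplicit false

namespace HKC

open MeasureTheory QG HK

theorem ct_be (m : ℕ) (hm : 1 ≤ m) :
    be m * 512 ^ (2 * m - 1) ≤ 3 * (7 / 10 : ℝ) ^ (2 * m - 1) := by
  obtain ⟨d, hd⟩ : ∃ d : ℕ, 2 * m = d + 1 := ⟨2 * m - 1, by omega⟩
  have hd' : 2 * m - 1 = d := by omega
  unfold be ep
  rw [hd']
  have hm2 : (2 * (m : ℝ)) = (d : ℝ) + 1 := by exact_mod_cast hd
  rw [hm2]
  have h1 : ((d : ℝ) + 1) ^ d / (d.factorial : ℝ) ≤ Real.exp ((d : ℝ) + 1) := by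
    have h2 := Real.pow_div_factorial_le_exp ((d : ℝ) + 1) (by positivity) (d + 1)
    have h3 : ((d : ℝ) + 1) ^ (d + 1) / ((d + 1).factorial : ℝ) =
        ((d : ℝ) + 1) ^ d / (d.factorial : ℝ) := by
      rw [pow_succ, Nat.factorial_succ]
      push_cast
      have : ((d : ℝ) + 1) ≠ 0 := by positivity
      have h4 : (d.factorial : ℝ) ≠ 0 := by exact_mod_cast Nat.factorial_ne_zero d
      field_simp
    rw [h3] at h2
    exact h2
  have h4 : (1 / 2000 * ((d : ℝ) + 1)) ^ d / (d.factorial : ℝ) * 512 ^ d =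
      (512 / 2000) ^ d * (((d : ℝ) + 1) ^ d / (d.factorial : ℝ)) := by
    rw [mul_pow, show (512 / 2000 : ℝ) = 1 / 2000 * 512 by norm_num, mul_pow]
    ring
  rw [h4]
  have he := Real.exp_one_lt_d9
  have hexp : Real.exp ((d : ℝ) + 1) = Real.exp 1 ^ d * Real.exp 1 := by
    rw [Real.exp_add, ← Real.exp_nat_mul, mul_one]
  calc (512 / 2000 : ℝ) ^ d * (((d : ℝ) + 1) ^ d / (d.factorial : ℝ))
      ≤ (512 / 2000 : ℝ) ^ d * (Real.exp 1 ^ d * Real.exp 1) := by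
        rw [← hexp]
        exact mul_le_mul_of_nonneg_left h1 (by positivity)
    _ = (512 / 2000 * Real.exp 1) ^ d * Real.exp 1 := by rw [mul_pow]; ring
    _ ≤ (7 / 10 : ℝ) ^ d * 3 := by
        apply mul_le_mul _ (by linarith) (Real.exp_pos 1).le (by positivity)
        apply pow_le_pow_left₀ (by positivity)
        linarith
    _ = 3 * (7 / 10 : ℝ) ^ d := mul_comm _ _

/-- the choice of `m` -/
theorem const_m (δ : ℝ) (hδ : 0 < δ) (m0 : ℕ) : ∃ m, m0 ≤ m ∧ Even m ∧ 2 ≤ m ∧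
    4 * (2 * R0 + 1) ^ 2 * (be m * 512 ^ (2 * m - 1)) ≤ δ := by
  obtain ⟨K, hK⟩ : ∃ K : ℝ, K = 4 * (2 * (R0 : ℝ) + 1) ^ 2 := ⟨_, rfl⟩
  have hK0 : 0 < K := by rw [hK]; positivity
  obtain ⟨N, hN⟩ := exists_pow_lt_of_lt_one (show 0 < δ / (K * 3) by positivity)
    (show (7 / 10 : ℝ) < 1 by norm_num)
  refine ⟨2 * (m0 + 1 + N), by omega, even_two_mul _, by omega, ?_⟩
  obtain ⟨m, hm⟩ : ∃ m, m = 2 * (m0 + 1 + N) := ⟨_, rfl⟩
  rw [← hm, ← hK]
  have h1 := ct_be m (by omega)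
  have h2 : (7 / 10 : ℝ) ^ (2 * m - 1) ≤ (7 / 10 : ℝ) ^ N :=
    pow_le_pow_of_le_one (by norm_num) (by norm_num) (by omega)
  calc K * (be m * 512 ^ (2 * m - 1)) ≤ K * (3 * (7 / 10 : ℝ) ^ (2 * m - 1)) :=
        mul_le_mul_of_nonneg_left h1 hK0.le
    _ ≤ K * (3 * (7 / 10 : ℝ) ^ N) := by
        apply mul_le_mul_of_nonneg_left _ hK0.le
        linarith
    _ ≤ K * (3 * (δ / (K * 3))) := by
        apply mul_le_mul_of_nonneg_left _ hK0.le
        linarith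
    _ = δ := by field_simp

end HKC
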