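import Mathlib
import Pool.Agent.Lib_helper14.HKC.DefsC
import Pool.Agent.Lib_helper14.HKC.W.cn
import Pool.Agent.Lib_helper14.HKC.W.cs
import Pool.Agent.Lib_helper14.HKC.W.ct

set_option autoImplicit false

namespace HKC

open MeasureTheory QG HK

/-- Part C -/
theorem bad_exists (m0 : ℕ) : ∃ m, m0 ≤ m ∧ Even m ∧ 2 ≤ m ∧ ∀ (n : ℕ) [NeZero n], 64 * m ≤ n →
    ∀ S : Finset (ℤ × ℤ), S ⊆ LamI n m R0 →
      muh n 0 {a | ∀ k ∈ S, Bad n m a k} ≤ ENNReal.ofReal ((1 / 10 ^ 8) ^ S.card) := by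
  obtain ⟨m, h1, h2, h3, h4⟩ := const_m ((1 / 10 ^ 8 : ℝ) ^ ((2 * (2 * R0 + 2) + 1) ^ 2))
    (by positivity) m0
  refine ⟨m, h1, h2, h3, fun n _ hn S hS => ?_⟩
  obtain ⟨S', hS', hsep, hcard⟩ := sep_subset (2 * R0 + 2) S
  have h5 := bad_sep n m h3 hn (hS'.trans hS) hsep
  calc muh n 0 {a | ∀ k ∈ S, Bad n m a k} ≤ muh n 0 {a | ∀ k ∈ S', Bad n m a k} :=
        measure_mono fun a ha k hk => ha k (hS' hk)
    _ ≤ ENNReal.ofReal (4 * (2 * R0 + 1) ^ 2 * (be m * 512 ^ (2 * m - 1))) ^ S'.card := h5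
    _ ≤ ENNReal.ofReal ((1 / 10 ^ 8 : ℝ) ^ ((2 * (2 * R0 + 2) + 1) ^ 2)) ^ S'.card :=
        pow_le_pow_left₀ (zero_le) (ENNReal.ofReal_le_ofReal h4) _
    _ = ENNReal.ofReal ((1 / 10 ^ 8 : ℝ) ^ ((2 * (2 * R0 + 2) + 1) ^ 2 * S'.card)) := by
        rw [← ENNReal.ofReal_pow (by positivity), ← pow_mul]
    _ ≤ ENNReal.ofReal ((1 / 10 ^ 8) ^ S.card) :=
        ENNReal.ofReal_le_ofReal (pow_le_pow_of_le_one (by norm_num) (by norm_num) hcard)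

end HKC
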